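import Mathlib

/-!
# MP_80156a_co: independent sets in unions of subcubes
-/

set_option autoImplicit false

namespace Pool.Agent.Work.MP_80156a_co

variable {ι : Type*} [DecidableEq ι]

/-- counting in a product -/
theorem card_prod (V U T g : Finset ι) (hT : T ⊆ V) (hTU : Disjoint T U) (hg : g ⊆ T)
    (E : Finset (Finset ι)) (hE : ∀ B ∈ E, B ⊆ V)
    (hinv : ∀ B B' : Finset ι, B ⊆ V → B' ⊆ V → B ∩ U = B' ∩ U → B ∈ E → B' ∈ E) :
    (E.filter fun B => B ∩ T = g).card * 2 ^ T.card = E.card := by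
  rw [← Finset.card_powerset T, ← Finset.card_product]
  have hdis : ∀ i ∈ T, i ∉ U := fun i hi => Finset.disjoint_left.1 hTU hi
  refine Finset.card_nbij' (fun p => (p.1 \ T) ∪ p.2) (fun B => ((B \ T) ∪ g, B ∩ T))
    ?_ ?_ ?_ ?_
  · rintro ⟨B, H⟩ hp
    simp only [Finset.coe_product, Set.mem_prod, Finset.mem_coe, Finset.mem_filter,
      Finset.mem_powerset] at hp
    obtain ⟨⟨hB, hBT⟩, hH⟩ := hp
    refine hinv B _ (hE B hB) ?_ ?_ hB
    · exact Finset.union_subset (Finset.sdiff_subset.trans (hE B hB)) (hH.trans hT)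
    · ext i
      simp only [Finset.mem_inter, Finset.mem_union, Finset.mem_sdiff]
      constructor
      · rintro ⟨h1, h2⟩
        exact ⟨Or.inl ⟨h1, fun h => hdis i h h2⟩, h2⟩
      · rintro ⟨h1 | h1, h2⟩
        · exact ⟨h1.1, h2⟩
        · exact absurd h2 (hdis i (hH h1))
  · intro B hB
    have hB' : B ∈ E := hB
    simp only [Finset.coe_product, Set.mem_prod, Finset.mem_coe, Finset.mem_filter,
      Finset.mem_powerset]
    refine ⟨⟨hinv B _ (hE B hB') ?_ ?_ hB', ?_⟩, Finset.inter_subset_right⟩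
    · exact Finset.union_subset (Finset.sdiff_subset.trans (hE B hB')) (hg.trans hT)
    · ext i
      simp only [Finset.mem_inter, Finset.mem_union, Finset.mem_sdiff]
      constructor
      · rintro ⟨h1, h2⟩
        exact ⟨Or.inl ⟨h1, fun h => hdis i h h2⟩, h2⟩
      · rintro ⟨h1 | h1, h2⟩
        · exact ⟨h1.1, h2⟩
        · exact absurd h2 (hdis i (hg h1))
    · ext i
      simp only [Finset.mem_inter, Finset.mem_union, Finset.mem_sdiff]
      constructor
      · rintro ⟨h1 | h1, h2⟩
        · exact absurd h2 h1.2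
        · exact h1
      · intro h
        exact ⟨Or.inr h, hg h⟩
  · rintro ⟨B, H⟩ hp
    simp only [Finset.coe_product, Set.mem_prod, Finset.mem_coe, Finset.mem_filter,
      Finset.mem_powerset] at hp
    obtain ⟨⟨hB, hBT⟩, hH⟩ := hp
    simp only [Prod.mk.injEq]
    constructor
    · ext i
      simp only [Finset.mem_union, Finset.mem_sdiff]
      constructor
      · rintro (⟨h1 | h1, h2⟩ | h1)
        · exact h1.1
        · exact absurd (hH h1) h2
        · rw [← hBT] at h1; exact (Finset.mem_inter.1 h1).1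
      · intro h
        by_cases hiT : i ∈ T
        · right; rw [← hBT]; exact Finset.mem_inter.2 ⟨h, hiT⟩
        · exact Or.inl ⟨Or.inl ⟨h, hiT⟩, hiT⟩
    · ext i
      simp only [Finset.mem_inter, Finset.mem_union, Finset.mem_sdiff]
      constructor
      · rintro ⟨h1 | h1, h2⟩
        · exact absurd h2 h1.2
        · exact h1
      · intro h
        exact ⟨Or.inr h, hH h⟩
  · intro B hB
    ext i
    simp only [Finset.mem_union, Finset.mem_sdiff, Finset.mem_inter]
    constructor
    · rintro (⟨h1 | h1, h2⟩ | h1)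
      · exact h1.1
      · exact absurd (hg h1) h2
      · exact h1.1
    · intro h
      by_cases hiT : i ∈ T
      · exact Or.inr ⟨h, hiT⟩
      · exact Or.inl ⟨Or.inl ⟨h, hiT⟩, hiT⟩

/-- the number of points of a subcube -/
theorem card_cube (V T g : Finset ι) (hT : T ⊆ V) (hg : g ⊆ T) :
    (V.powerset.filter fun B => B ∩ T = g).card * 2 ^ T.card = 2 ^ V.card := by
  rw [card_prod V ∅ T g hT (Finset.disjoint_empty_right T) hg V.powerset
    (fun B hB => Finset.mem_powerset.1 hB) (fun B B' _ hB' _ _ => Finset.mem_powerset.2 hB'),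
    Finset.card_powerset]

/-- the union of the subcubes -/
def uni (V : Finset ι) (F : Finset (Finset ι × Finset ι)) : Finset (Finset ι) :=
  V.powerset.filter fun B => ∃ p ∈ F, B ∩ p.1 = p.2

theorem uni_card (V : Finset ι) (t : ℕ) (F : Finset (Finset ι × Finset ι)) (hF : F.Nonempty)
    (h : ∀ p ∈ F, p.1 ⊆ V ∧ p.2 ⊆ p.1 ∧ p.1.card ≤ t) :
    2 * (2 ^ V.card / 2 ^ t : ℝ) - 2 ^ V.card / 2 ^ (F.biUnion Prod.fst).card ≤ (uni V F).card := by
  classical
  induction hF using Finset.Nonempty.cons_induction with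
  | singleton p =>
    obtain ⟨h1, h2, h3⟩ := h p (Finset.mem_singleton_self p)
    have h4 : uni V {p} = V.powerset.filter fun B => B ∩ p.1 = p.2 := by
      ext B; simp [uni]
    have h5 := card_cube V p.1 p.2 h1 h2
    rw [h4, Finset.singleton_biUnion]
    set n := (V.powerset.filter fun B => B ∩ p.1 = p.2).card
    have h6 : (n : ℝ) = 2 ^ V.card / 2 ^ p.1.card := by
      rw [eq_div_iff (by positivity)]
      exact_mod_cast h5
    have h7 : (2 : ℝ) ^ V.card / 2 ^ t ≤ 2 ^ V.card / 2 ^ p.1.card :=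
      div_le_div_of_nonneg_left (by positivity) (by positivity)
        (pow_le_pow_right₀ one_le_two h3)
    rw [h6]
    linarith
  | cons p F hpF hF ih =>
    obtain ⟨T, g⟩ := p
    obtain ⟨hT, hg, hTt⟩ := h (T, g) (Finset.mem_cons_self _ _)
    replace hTt : T.card ≤ t := hTt
    have hF' : ∀ p ∈ F, p.1 ⊆ V ∧ p.2 ⊆ p.1 ∧ p.1.card ≤ t := fun p hp =>
      h p (Finset.mem_cons_of_mem hp)
    have ih' := ih hF'
    set U := F.biUnion Prod.fst with hU
    set W := uni V F with hW
    have hUV : U ⊆ V := Finset.biUnion_subset.2 fun p hp => (hF' p hp).1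
    have hWV : ∀ B ∈ W, B ⊆ V := fun B hB => Finset.mem_powerset.1 (Finset.mem_filter.1 hB).1
    have hWinv : ∀ B B' : Finset ι, B ⊆ V → B' ⊆ V → B ∩ U = B' ∩ U → B ∈ W → B' ∈ W := by
      intro B B' hB hB' hBB hBW
      obtain ⟨q, hq, hq'⟩ := (Finset.mem_filter.1 hBW).2
      refine Finset.mem_filter.2 ⟨Finset.mem_powerset.2 hB', q, hq, ?_⟩
      have hqU : q.1 ⊆ U := fun i hi => Finset.mem_biUnion.2 ⟨q, hq, hi⟩
      rw [← hq']
      ext i
      simp only [Finset.mem_inter]
      constructor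
      · rintro ⟨h1, h2⟩
        have : i ∈ B' ∩ U := Finset.mem_inter.2 ⟨h1, hqU h2⟩
        rw [← hBB] at this
        exact ⟨(Finset.mem_inter.1 this).1, h2⟩
      · rintro ⟨h1, h2⟩
        have : i ∈ B ∩ U := Finset.mem_inter.2 ⟨h1, hqU h2⟩
        rw [hBB] at this
        exact ⟨(Finset.mem_inter.1 this).1, h2⟩
    set E := (V.powerset.filter fun B => B ∩ (T ∩ U) = g ∩ U) \ W with hE
    have hEV : ∀ B ∈ E, B ⊆ V := fun B hB =>
      Finset.mem_powerset.1 (Finset.mem_filter.1 (Finset.mem_sdiff.1 hB).1).1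
    have hEinv : ∀ B B' : Finset ι, B ⊆ V → B' ⊆ V → B ∩ U = B' ∩ U → B ∈ E → B' ∈ E := by
      intro B B' hB hB' hBB hBE
      obtain ⟨h1, h2⟩ := Finset.mem_sdiff.1 hBE
      refine Finset.mem_sdiff.2 ⟨Finset.mem_filter.2 ⟨Finset.mem_powerset.2 hB', ?_⟩,
        fun h3 => h2 (hWinv B' B hB' hB hBB.symm h3)⟩
      rw [← (Finset.mem_filter.1 h1).2]
      have h3 : ∀ D : Finset ι, D ∩ (T ∩ U) = D ∩ U ∩ T := fun D => by
        ext i; simp only [Finset.mem_inter]; tauto
      rw [h3, h3, hBB]
    -- the new points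
    have hnew : (E.filter fun B => B ∩ (T \ U) = g \ U) ∪ W ⊆ uni V (Finset.cons (T, g) F hpF) := by
      intro B hB
      rcases Finset.mem_union.1 hB with h1 | h1
      · obtain ⟨h2, h3⟩ := Finset.mem_filter.1 h1
        obtain ⟨h4, -⟩ := Finset.mem_sdiff.1 h2
        obtain ⟨h5, h6⟩ := Finset.mem_filter.1 h4
        refine Finset.mem_filter.2 ⟨h5, (T, g), Finset.mem_cons_self _ _, ?_⟩
        ext i
        have h7 := Finset.ext_iff.1 h6 i
        have h8 := Finset.ext_iff.1 h3 i
        simp only [Finset.mem_inter, Finset.mem_sdiff] at h7 h8 ⊢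
        tauto
      · obtain ⟨h2, q, hq, h3⟩ := Finset.mem_filter.1 h1
        exact Finset.mem_filter.2 ⟨h2, q, Finset.mem_cons_of_mem hq, h3⟩
    have hdisj : Disjoint (E.filter fun B => B ∩ (T \ U) = g \ U) W := by
      rw [Finset.disjoint_left]
      intro B hB
      exact (Finset.mem_sdiff.1 (Finset.mem_filter.1 hB).1).2
    have hcard : (E.filter fun B => B ∩ (T \ U) = g \ U).card + W.card ≤
        (uni V (Finset.cons (T, g) F hpF)).card := by
      rw [← Finset.card_union_of_disjoint hdisj]; exact Finset.card_le_card hnew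
    have hx := card_prod V U (T \ U) (g \ U) (Finset.sdiff_subset.trans hT)
      Finset.sdiff_disjoint (Finset.sdiff_subset_sdiff hg le_rfl) E hEV hEinv
    have hG := card_cube V (T ∩ U) (g ∩ U) (Finset.inter_subset_left.trans hT)
      (Finset.inter_subset_inter hg le_rfl)
    have hGW : (V.powerset.filter fun B => B ∩ (T ∩ U) = g ∩ U).card ≤ E.card + W.card := by
      rw [hE]
      exact Finset.card_le_card_sdiff_add_card
    set a := (T \ U).card with ha
    set x := E.card with hxdef
    set y := (E.filter fun B => B ∩ (T \ U) = g \ U).card with hy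
    set G := (V.powerset.filter fun B => B ∩ (T ∩ U) = g ∩ U).card with hGdef
    have hTa : (T ∩ U).card + a = T.card := by
      rw [ha, add_comm]; exact Finset.card_sdiff_add_card_inter T U
    have hUU : (Finset.biUnion (Finset.cons (T, g) F hpF) Prod.fst).card = U.card + a := by
      rw [Finset.cons_eq_insert, Finset.biUnion_insert, ha, add_comm,
        ← Finset.card_union_of_disjoint Finset.sdiff_disjoint, Finset.sdiff_union_self_eq_union]
    rw [hUU]
    set A : ℝ := 2 ^ V.card / 2 ^ t with hA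
    set Bq : ℝ := 2 ^ V.card / 2 ^ U.card with hBq
    set α : ℝ := 2 ^ a with hα
    have hα1 : 1 ≤ α := one_le_pow₀ one_le_two
    have hα0 : 0 < α := by linarith
    have hBα : (2 : ℝ) ^ V.card / 2 ^ (U.card + a) = Bq / α := by
      rw [hBq, hα, pow_add, div_div]
    rw [hBα]
    have hy' : (y : ℝ) = x / α := by
      rw [eq_div_iff hα0.ne', hα]
      exact_mod_cast hx
    have hGA : α * A ≤ G := by
      have h1 : (G : ℝ) = 2 ^ V.card / 2 ^ (T ∩ U).card := by
        rw [eq_div_iff (by positivity)]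
        exact_mod_cast hG
      rw [h1, hα, hA, mul_div_assoc', div_le_div_iff₀ (by positivity) (by positivity)]
      have h2 : (2 : ℝ) ^ a * 2 ^ (T ∩ U).card ≤ 2 ^ t := by
        rw [← pow_add]; exact pow_le_pow_right₀ one_le_two (by omega)
      calc (2 : ℝ) ^ a * 2 ^ V.card * 2 ^ (T ∩ U).card
          = 2 ^ V.card * (2 ^ a * 2 ^ (T ∩ U).card) := by ring
        _ ≤ 2 ^ V.card * 2 ^ t := mul_le_mul_of_nonneg_left h2 (by positivity)
    have hGW' : (G : ℝ) ≤ x + W.card := by exact_mod_cast hGW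
    have hcard' : (x : ℝ) / α + W.card ≤ (uni V (Finset.cons (T, g) F hpF)).card := by
      rw [← hy']; exact_mod_cast hcard
    have hx0 : (0 : ℝ) ≤ x := by positivity
    have hB0 : 0 ≤ Bq := by positivity
    refine le_trans ?_ hcard'
    rcases Nat.lt_or_ge U.card t with hlt | hge
    · -- few coordinates used
      obtain ⟨q, hq⟩ := hF
      have hqW : q.2 ∈ W := by
        obtain ⟨h1, h2, -⟩ := hF' q hq
        refine Finset.mem_filter.2 ⟨Finset.mem_powerset.2 (h2.trans h1), q, hq, ?_⟩
        exact Finset.inter_eq_left.2 h2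
      have h1 : (V.powerset.filter fun B => B ∩ U = q.2 ∩ U) ⊆ W := by
        intro B hB
        obtain ⟨h2, h3⟩ := Finset.mem_filter.1 hB
        exact hWinv q.2 B (hWV _ hqW) (Finset.mem_powerset.1 h2) h3.symm hqW
      have h2 := card_cube V U (q.2 ∩ U) hUV Finset.inter_subset_right
      have h3 : Bq ≤ W.card := by
        have h4 : ((V.powerset.filter fun B => B ∩ U = q.2 ∩ U).card : ℝ) = Bq := by
          rw [hBq, eq_div_iff (by positivity)]
          exact_mod_cast h2
        rw [← h4]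
        exact_mod_cast Finset.card_le_card h1
      have h4 : 2 * A ≤ Bq := by
        rw [hA, hBq, mul_div_assoc', div_le_div_iff₀ (by positivity) (by positivity)]
        have h5 : (2 : ℝ) * 2 ^ U.card ≤ 2 ^ t := by
          rw [← pow_succ']; exact pow_le_pow_right₀ one_le_two hlt
        calc 2 * (2 : ℝ) ^ V.card * 2 ^ U.card = 2 ^ V.card * (2 * 2 ^ U.card) := by ring
          _ ≤ 2 ^ V.card * 2 ^ t := mul_le_mul_of_nonneg_left h5 (by positivity)
      have h5 : 0 ≤ (x : ℝ) / α := by positivity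
      have h6 : 0 ≤ Bq / α := by positivity
      linarith
    · have hAB : Bq ≤ A := div_le_div_of_nonneg_left (by positivity) (by positivity)
        (pow_le_pow_right₀ one_le_two hge)
      rcases le_or_gt ((α - 1) * Bq) x with h1 | h1
      · have h2 : (α - 1) * Bq / α ≤ x / α := div_le_div_of_nonneg_right h1 hα0.le
        have h3 : (α - 1) * Bq / α = Bq - Bq / α := by field_simp
        rw [h3] at h2
        linarith
      · -- `α ≥ 2`
        have hα2 : 2 ≤ α := by
          rcases Nat.eq_zero_or_pos a with h2 | h2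
          · exfalso
            rw [hα, h2, pow_zero, sub_self, zero_mul] at h1
            linarith
          · calc (2 : ℝ) = 2 ^ 1 := (pow_one _).symm
              _ ≤ 2 ^ a := pow_le_pow_right₀ one_le_two h2
        have h2 : α * A - x + x / α ≤ x / α + W.card := by linarith
        refine le_trans ?_ h2
        have h3 : (x : ℝ) - x / α = x * (1 - 1 / α) := by ring
        have h4 : 0 ≤ 1 - 1 / α := by
          rw [sub_nonneg, div_le_one hα0]; exact hα1
        have h5 : (x : ℝ) * (1 - 1 / α) ≤ (α - 1) * Bq * (1 - 1 / α) :=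
          mul_le_mul_of_nonneg_right h1.le h4
        have h6 : (α - 1) * Bq * (1 - 1 / α) = (α - 2) * Bq + Bq / α := by
          field_simp; ring
        have h7 : (α - 2) * Bq ≤ (α - 2) * A := mul_le_mul_of_nonneg_left hAB (by linarith)
        linarith

/-- an independent set in a union of subcubes which use all coordinates -/
theorem exists_indep (V : Finset ι) (t : ℕ) (W : Finset (Finset ι))
    (hne : ∃ T g : Finset ι, T ⊆ V ∧ g ⊆ T ∧ T.card ≤ t ∧ ∀ B ⊆ V, B ∩ T = g → B ∈ W)
    (hall : ∀ j ∈ V, ∃ T g : Finset ι, j ∈ T ∧ T ⊆ V ∧ g ⊆ T ∧ T.card ≤ t ∧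
      ∀ B ⊆ V, B ∩ T = g → B ∈ W) :
    ∃ r : ℕ, 2 ^ V.card ≤ (W.filter fun B => B.card % 2 = r).card * 2 ^ t := by
  classical
  have hall' : ∀ j : ι, ∃ p : Finset ι × Finset ι, j ∈ V → (j ∈ p.1 ∧ p.1 ⊆ V ∧ p.2 ⊆ p.1 ∧
      p.1.card ≤ t ∧ ∀ B ⊆ V, B ∩ p.1 = p.2 → B ∈ W) := by
    intro j
    by_cases hj : j ∈ V
    · obtain ⟨T, g, h⟩ := hall j hj
      exact ⟨(T, g), fun _ => h⟩
    · exact ⟨(∅, ∅), fun h => absurd h hj⟩
  choose p hp using hall'
  obtain ⟨T₀, g₀, h0⟩ := hne
  set F : Finset (Finset ι × Finset ι) := insert (T₀, g₀) (V.image p) with hF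
  have hFprop : ∀ q ∈ F, q.1 ⊆ V ∧ q.2 ⊆ q.1 ∧ q.1.card ≤ t := by
    intro q hq
    rcases Finset.mem_insert.1 hq with rfl | hq
    · exact ⟨h0.1, h0.2.1, h0.2.2.1⟩
    · obtain ⟨j, hj, rfl⟩ := Finset.mem_image.1 hq
      exact ⟨(hp j hj).2.1, (hp j hj).2.2.1, (hp j hj).2.2.2.1⟩
  have hFV : F.biUnion Prod.fst = V := by
    refine Finset.Subset.antisymm (Finset.biUnion_subset.2 fun q hq => (hFprop q hq).1) ?_
    intro j hj
    exact Finset.mem_biUnion.2 ⟨p j, Finset.mem_insert_of_mem (Finset.mem_image_of_mem p hj),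
      (hp j hj).1⟩
  have hsub : uni V F ⊆ W := by
    intro B hB
    obtain ⟨h1, q, hq, h2⟩ := Finset.mem_filter.1 hB
    rcases Finset.mem_insert.1 hq with rfl | hq
    · exact h0.2.2.2 B (Finset.mem_powerset.1 h1) h2
    · obtain ⟨j, hj, rfl⟩ := Finset.mem_image.1 hq
      exact (hp j hj).2.2.2.2 B (Finset.mem_powerset.1 h1) h2
  have h1 := uni_card V t F (Finset.insert_nonempty _ _) hFprop
  rw [hFV, div_self (by positivity)] at h1
  have h2 : ((uni V F).card : ℝ) ≤ W.card := by exact_mod_cast Finset.card_le_card hsub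
  -- the two parity classes
  have h3 : (W.filter fun B => B.card % 2 = 0).card + (W.filter fun B => B.card % 2 = 1).card
      = W.card := by
    have h4 := Finset.card_filter_add_card_filter_not (s := W) (fun B => B.card % 2 = 0)
    rw [← h4]
    congr 2
    ext B
    simp only [Finset.mem_filter]
    constructor
    · rintro ⟨h5, h6⟩; exact ⟨h5, by omega⟩
    · rintro ⟨h5, h6⟩; exact ⟨h5, by omega⟩
  have hg0 : g₀ ∈ W := h0.2.2.2 g₀ (h0.2.1.trans h0.1) (Finset.inter_eq_left.2 h0.2.1)
  by_contra hcon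
  push Not at hcon
  have h5 := hcon 0
  have h6 := hcon 1
  rcases Nat.lt_or_ge V.card t with hlt | hge
  · have h7 : 1 ≤ W.card := Finset.card_pos.2 ⟨g₀, hg0⟩
    have h8 : 2 ^ V.card ≤ 2 ^ t := Nat.pow_le_pow_right (by norm_num) hlt.le
    rcases Nat.eq_zero_or_pos (W.filter fun B => B.card % 2 = 0).card with h9 | h9
    · have h10 : 1 ≤ (W.filter fun B => B.card % 2 = 1).card := by omega
      have h11 : 1 * 2 ^ t ≤ (W.filter fun B => B.card % 2 = 1).card * 2 ^ t :=
        Nat.mul_le_mul_right _ h10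
      omega
    · have h11 : 1 * 2 ^ t ≤ (W.filter fun B => B.card % 2 = 0).card * 2 ^ t :=
        Nat.mul_le_mul_right _ h9
      omega
  · obtain ⟨e, he⟩ := Nat.exists_eq_add_of_le hge
    have h7 : 2 ^ V.card = 2 ^ e * 2 ^ t := by rw [he, pow_add, mul_comm]
    rw [h7] at h5 h6
    have h8 := Nat.lt_of_mul_lt_mul_right h5
    have h9 := Nat.lt_of_mul_lt_mul_right h6
    have h10 : (2 : ℝ) ^ V.card / 2 ^ t = 2 ^ e := by
      rw [div_eq_iff (by positivity)]
      exact_mod_cast h7
    rw [h10] at h1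
    have h11 : (2 * 2 ^ e : ℝ) ≤ W.card + 1 := by linarith
    have h12 : 2 * 2 ^ e ≤ W.card + 1 := by exact_mod_cast h11
    omega

/-- the number of subsets with a prescribed part -/
theorem card_ext [Fintype ι] (V S : Finset ι) (hVS : Disjoint V S) (C : Finset (Finset ι))
    (hC : ∀ c ∈ C, c ⊆ V) :
    (Finset.univ.filter fun s : Finset ι => s ∩ V ∈ C ∧ S ⊆ s).card * 2 ^ (V.card + S.card)
      = C.card * 2 ^ Fintype.card ι := by
  classical
  have h1 : (Finset.univ.filter fun s : Finset ι => s ∩ V ∈ C ∧ S ⊆ s)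
      = C.biUnion fun c => (Finset.univ : Finset ι).powerset.filter
          fun s => s ∩ (V ∪ S) = c ∪ S := by
    ext s
    simp only [Finset.mem_filter, Finset.mem_univ, true_and, Finset.mem_biUnion,
      Finset.powerset_univ]
    constructor
    · rintro ⟨h1, h2⟩
      refine ⟨_, h1, ?_⟩
      rw [Finset.inter_union_distrib_left, Finset.inter_eq_right.2 h2]
    · rintro ⟨c, hc, h1⟩
      have h2 : s ∩ V = c := by
        ext i
        have h3 := Finset.ext_iff.1 h1 i
        simp only [Finset.mem_inter, Finset.mem_union] at h3 ⊢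
        constructor
        · rintro ⟨h4, h5⟩
          rcases h3.1 ⟨h4, Or.inl h5⟩ with h6 | h6
          · exact h6
          · exact absurd h6 (Finset.disjoint_left.1 hVS h5)
        · intro h4
          exact ⟨(h3.2 (Or.inl h4)).1, hC c hc h4⟩
      refine ⟨by rw [h2]; exact hc, fun i hi => ?_⟩
      have h3 : i ∈ s ∩ (V ∪ S) := by rw [h1]; exact Finset.mem_union_right _ hi
      exact (Finset.mem_inter.1 h3).1
  rw [h1, Finset.card_biUnion]
  · rw [Finset.sum_mul]
    have h2 : ∀ c ∈ C, ((Finset.univ : Finset ι).powerset.filter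
        fun s => s ∩ (V ∪ S) = c ∪ S).card * 2 ^ (V.card + S.card) = 2 ^ Fintype.card ι := by
      intro c hc
      rw [← Finset.card_union_of_disjoint hVS]
      exact card_cube Finset.univ (V ∪ S) (c ∪ S) (Finset.subset_univ _)
        (Finset.union_subset_union (hC c hc) le_rfl)
    rw [Finset.sum_congr rfl h2, Finset.sum_const, smul_eq_mul]
  · intro c hc c' hc' hne
    rw [Function.onFun, Finset.disjoint_left]
    intro s hs hs'
    have h2 := (Finset.mem_filter.1 hs).2
    have h3 := (Finset.mem_filter.1 hs').2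
    apply hne
    rw [h2] at h3
    ext i
    have h4 := Finset.ext_iff.1 h3 i
    simp only [Finset.mem_union] at h4
    constructor
    · intro h5
      rcases h4.1 (Or.inl h5) with h6 | h6
      · exact h6
      · exact absurd h6 (Finset.disjoint_left.1 hVS (hC c hc h5))
    · intro h5
      rcases h4.2 (Or.inl h5) with h6 | h6
      · exact h6
      · exact absurd h6 (Finset.disjoint_left.1 hVS (hC c' hc' h5))

end Pool.Agent.Work.MP_80156a_co
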