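import Mathlib

/-!
# MP_80156a_co: regular boundary points, circuits of normals and the Helly dimension
-/

set_option autoImplicit false

namespace Pool.Agent.Work.MP_80156a_co

open scoped Topology

/-- If any `n` of finitely many translates of `K` have a common point, then all have. -/
def HP {E : Type*} [AddCommGroup E] (K : Set E) (n : ℕ) : Prop :=
  ∀ T : Finset E, (∀ S ⊆ T, S.card ≤ n → ∃ x, ∀ t ∈ S, x - t ∈ K) → ∃ x, ∀ t ∈ T, x - t ∈ K

/-- `w` is a regular boundary point of `K` with outer normal `f`. -/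
def Reg {E : Type*} [AddCommGroup E] [Module ℝ E] (K : Set E) (w : E) (f : E →ₗ[ℝ] ℝ) : Prop :=
  w ∈ K ∧ (∀ z ∈ K, f z ≤ f w) ∧ ∀ ζ, f ζ < 0 → ∃ τ : ℝ, 0 < τ ∧ ∀ t : ℝ, 0 < t → t ≤ τ → w + t • ζ ∈ K

theorem circuit {E : Type*} [AddCommGroup E] [Module ℝ E] {K : Set E} {n : ℕ} (hK : HP K n)
    {α : Type*} [Fintype α] [DecidableEq α] (w : α → E) (f : α → E →ₗ[ℝ] ℝ)
    (hr : ∀ a, Reg K (w a) (f a)) (c : α → ℝ) (hc : ∀ a, 0 < c a)
    (h0 : ∀ x, ∑ a, c a * f a x = 0) (ζ : α → E) (hζ : ∀ a b, b ≠ a → f b (ζ a) < 0)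
    (i j : α) (hij : i ≠ j) : Fintype.card α ≤ n := by
  classical
  by_contra hlt
  push Not at hlt
  set e := ζ j with he
  have hie : f i e < 0 := hζ j i hij
  -- the point common to all translates except number `a`
  have hZ : ∀ a, ∃ z : E, ∀ b, b ≠ a → f b (z - (if b = i then e else 0)) < 0 := by
    intro a
    by_cases hai : a = i
    · refine ⟨ζ a, fun b hb => ?_⟩
      rw [if_neg (by rw [← hai]; exact hb), sub_zero]
      exact hζ a b hb
    · have h1 : f i (ζ a) < 0 := hζ a i (fun h => hai h.symm)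
      obtain ⟨m, hm⟩ := exists_nat_gt (f i e / f i (ζ a))
      refine ⟨((m : ℝ) + 1) • ζ a, fun b hb => ?_⟩
      have hm0 : (0 : ℝ) < (m : ℝ) + 1 := by positivity
      by_cases hbi : b = i
      · subst hbi
        rw [if_pos rfl, map_sub, map_smul, smul_eq_mul]
        have h2 : f b e / f b (ζ a) < m + 1 := by linarith
        rw [div_lt_iff_of_neg h1] at h2
        linarith
      · rw [if_neg hbi, sub_zero, map_smul, smul_eq_mul]
        exact mul_neg_of_pos_of_neg hm0 (hζ a b hb)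
  choose z hz using hZ
  have hτ : ∀ a b, ∃ τ : ℝ, 0 < τ ∧ (b ≠ a → ∀ t, 0 < t → t ≤ τ →
      w b + t • (z a - (if b = i then e else 0)) ∈ K) := by
    intro a b
    by_cases hb : b = a
    · exact ⟨1, one_pos, fun h => absurd hb h⟩
    · obtain ⟨τ, h1, h2⟩ := (hr b).2.2 _ (hz a b hb)
      exact ⟨τ, h1, fun _ => h2⟩
  choose τ hτ0 hτ1 using hτ
  obtain ⟨ε, hε0, hε⟩ : ∃ ε : ℝ, 0 < ε ∧ ∀ a b, ε ≤ τ a b := by
    have hne : (Finset.univ : Finset (α × α)).Nonempty := ⟨(i, i), Finset.mem_univ _⟩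
    obtain ⟨p, -, hp⟩ := Finset.exists_min_image Finset.univ (fun p : α × α => τ p.1 p.2) hne
    exact ⟨τ p.1 p.2, hτ0 _ _, fun a b => hp (a, b) (Finset.mem_univ _)⟩
  set t : α → E := fun a => -w a + ε • (if a = i then e else 0) with ht
  have hcommon : ∀ a b, b ≠ a → ε • z a - t b ∈ K := by
    intro a b hb
    have := hτ1 a b hb ε hε0 (hε a b)
    convert this using 1
    simp only [ht, smul_sub]
    abel
  have hP := hK (Finset.univ.image t) (fun S hS hcard => ?_)
  · obtain ⟨x, hx⟩ := hP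
    have h1 : ∀ a, f a x ≤ if a = i then ε * f i e else 0 := by
      intro a
      have h2 := (hr a).2.1 _ (hx (t a) (Finset.mem_image_of_mem _ (Finset.mem_univ a)))
      have h3 : x - t a = x + w a - ε • (if a = i then e else 0) := by
        simp only [ht]; abel
      rw [h3, map_sub, map_add, map_smul, smul_eq_mul] at h2
      by_cases hai : a = i
      · subst hai
        rw [if_pos rfl] at h2 ⊢
        linarith
      · rw [if_neg hai, map_zero, mul_zero] at h2
        rw [if_neg hai]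
        linarith
    have h4 : ∑ a, c a * f a x ≤ ∑ a, (if a = i then c i * (ε * f i e) else 0) := by
      refine Finset.sum_le_sum fun a _ => ?_
      have h5 := mul_le_mul_of_nonneg_left (h1 a) (hc a).le
      by_cases hai : a = i
      · subst hai; simpa using h5
      · simpa [hai] using h5
    rw [h0 x] at h4
    simp only [Finset.sum_ite_eq', Finset.mem_univ, if_true] at h4
    have h6 : c i * (ε * f i e) < 0 := mul_neg_of_pos_of_neg (hc i) (mul_neg_of_pos_of_neg hε0 hie)
    linarith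
  · -- choose preimages
    obtain ⟨A, hA, hAS⟩ : ∃ A : Finset α, A.card ≤ S.card ∧ ∀ s ∈ S, ∃ a ∈ A, t a = s := by
      have hpre : ∀ s : {x // x ∈ S}, ∃ a, t a = s.1 := fun s => by
        obtain ⟨a, -, ha⟩ := Finset.mem_image.1 (hS s.2)
        exact ⟨a, ha⟩
      choose g hg using hpre
      refine ⟨S.attach.image g, Finset.card_image_le.trans (by rw [Finset.card_attach]),
        fun s hs => ⟨g ⟨s, hs⟩, Finset.mem_image_of_mem _ (Finset.mem_attach S ⟨s, hs⟩), hg ⟨s, hs⟩⟩⟩
    have hex : ∃ a, a ∉ A := by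
      by_contra hcon
      push Not at hcon
      have h1 : A = Finset.univ := Finset.eq_univ_iff_forall.2 hcon
      rw [h1, Finset.card_univ] at hA
      omega
    obtain ⟨a, ha⟩ := hex
    refine ⟨ε • z a, fun s hs => ?_⟩
    obtain ⟨b, hbA, rfl⟩ := hAS s hs
    exact hcommon a b fun h => ha (h ▸ hbA)

/-- A closed convex set with interior points is the intersection of its supporting half spaces at
regular points. -/
theorem exists_reg {ι : Type*} [Fintype ι] {K : Set (ι → ℝ)} (hc : Convex ℝ K) (hcl : IsClosed K)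
    (hi : (interior K).Nonempty) {z₀ : ι → ℝ} (hz : z₀ ∉ K) :
    ∃ (w : ι → ℝ) (f : (ι → ℝ) →ₗ[ℝ] ℝ), Reg K w f ∧ f w < f z₀ := by
  classical
  obtain ⟨b, hb⟩ := hi
  set s : Set (ι → ℝ) := (fun x => x + b) ⁻¹' K with hs
  have hsc : Convex ℝ s := hc.translate_preimage_left b
  have hscl : IsClosed s := hcl.preimage (continuous_add_const b)
  have hs0 : s ∈ 𝓝 (0 : ι → ℝ) := by
    have h1 : K ∈ 𝓝 ((0 : ι → ℝ) + b) := by
      rw [zero_add]; exact mem_interior_iff_mem_nhds.1 hb
    exact (continuous_add_const b).continuousAt.preimage_mem_nhds h1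
  have habs : Absorbent ℝ s := absorbent_nhds_zero hs0
  have hgle : ∀ x, gauge s x ≤ 1 ↔ x + b ∈ K := fun x => by
    rw [gauge_le_one_iff_mem_closure hsc hs0, hscl.closure_eq]; rfl
  obtain ⟨C, hC⟩ := hsc.lipschitz_gauge hs0
  set g := gauge s with hg
  have hgadd : ∀ x y, g (x + y) ≤ g x + g y := gauge_add_le hsc habs
  have hgsm : ∀ (t : ℝ) (x : ι → ℝ), 0 ≤ t → g (t • x) = t * g x := fun t x ht => by
    rw [hg, gauge_smul_of_nonneg ht]; simp
  have hz1 : 1 < g (z₀ - b) := by
    by_contra hle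
    push Not at hle
    rw [hgle, sub_add_cancel] at hle
    exact hz hle
  -- a point of differentiability near `z₀ - b`
  have hLip : ∀ x y, |g x - g y| ≤ C * ‖x - y‖ := fun x y => by
    have := hC.dist_le_mul x y
    rwa [Real.dist_eq, dist_eq_norm] at this
  set η : ℝ := (g (z₀ - b) - 1) / (2 * (C + 1)) with hη
  have hη0 : 0 < η := by
    rw [hη]; exact div_pos (by linarith) (by positivity)
  obtain ⟨u, hu, hud⟩ : ∃ u ∈ Metric.ball (z₀ - b) η, DifferentiableAt ℝ g u := by
    have hae := hC.ae_differentiableAt (μ := MeasureTheory.volume)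
    have hd : Dense {x | DifferentiableAt ℝ g x} := MeasureTheory.Measure.dense_of_ae hae
    obtain ⟨u, hu⟩ := hd.exists_mem_open Metric.isOpen_ball ⟨_, Metric.mem_ball_self hη0⟩
    exact ⟨u, hu.2, hu.1⟩
  have hnorm : ‖z₀ - b - u‖ < η := by
    rw [← dist_eq_norm, dist_comm]; exact hu
  have hClt : (C : ℝ) * ‖z₀ - b - u‖ < (g (z₀ - b) - 1) / 2 := by
    have h1 : (C : ℝ) * ‖z₀ - b - u‖ ≤ (C + 1) * ‖z₀ - b - u‖ := by
      have := norm_nonneg (z₀ - b - u); nlinarith
    have hC1 : (0 : ℝ) < C + 1 := by positivity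
    have h2 : ((C : ℝ) + 1) * ‖z₀ - b - u‖ < (C + 1) * η := mul_lt_mul_of_pos_left hnorm hC1
    have h3 : ((C : ℝ) + 1) * η = (g (z₀ - b) - 1) / 2 := by
      rw [hη]; field_simp
    linarith
  set f := fderiv ℝ g u with hf
  have hfd : HasFDerivAt g f u := hud.hasFDerivAt
  -- derivative along lines
  have hline : ∀ v : ι → ℝ, HasDerivAt (fun t : ℝ => g (u + t • v)) (f v) 0 := by
    intro v
    have h1 : HasDerivAt (fun t : ℝ => u + t • v) v 0 := by
      simpa using ((hasDerivAt_id (0 : ℝ)).smul_const v).const_add u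
    have h2 : HasFDerivAt g f (u + (0 : ℝ) • v) := by simpa using hfd
    exact h2.comp_hasDerivAt (0 : ℝ) h1
  have hfle : ∀ v, f v ≤ g v := by
    intro v
    have h1 := (hline v).tendsto_slope_zero_right
    refine le_of_tendsto h1 ?_
    filter_upwards [self_mem_nhdsWithin] with t ht
    have ht0 : (0 : ℝ) < t := ht
    simp only [zero_add, zero_smul, add_zero, smul_eq_mul]
    have h2 : g (u + t • v) ≤ g u + t * g v := by
      rw [← hgsm t v ht0.le]; exact hgadd _ _
    rw [inv_mul_le_iff₀ ht0]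
    linarith
  have hfu : f u = g u := by
    have h1 := (hline u).tendsto_slope_zero_right
    refine tendsto_nhds_unique h1 ?_
    refine tendsto_const_nhds.congr' ?_
    filter_upwards [self_mem_nhdsWithin] with t ht
    have ht0 : (0 : ℝ) < t := ht
    simp only [zero_add, zero_smul, add_zero, smul_eq_mul]
    have h2 : u + t • u = (1 + t) • u := by rw [add_smul, one_smul]
    rw [h2, hgsm _ _ (by linarith)]
    field_simp
    ring
  have hgu : 1 < g u := by
    have h1 := (abs_le.1 (hLip (z₀ - b) u)).2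
    linarith
  have hgu0 : 0 < g u := by linarith
  have hgu' : g u ≠ 0 := hgu0.ne'
  set w := (g u)⁻¹ • u + b with hw
  have hgw : g ((g u)⁻¹ • u) = 1 := by
    rw [hgsm _ _ (inv_nonneg.2 hgu0.le), inv_mul_cancel₀ hgu']
  have hfw : f ((g u)⁻¹ • u) = 1 := by
    rw [map_smul, hfu, smul_eq_mul, inv_mul_cancel₀ hgu']
  refine ⟨w, (f : (ι → ℝ) →ₗ[ℝ] ℝ), ⟨?_, ?_, ?_⟩, ?_⟩
  · rw [hw, ← hgle, hgw]
  · intro z hzK
    have h1 : f (z - b) ≤ 1 := (hfle _).trans ((hgle _).2 (by rwa [sub_add_cancel]))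
    have h2 : f w = 1 + f b := by rw [hw, map_add, hfw]
    rw [map_sub] at h1
    change f z ≤ f w
    linarith
  · intro ζ hζ
    have hζ' : f ζ < 0 := hζ
    have h1 := (hline ζ).tendsto_slope_zero_right
    have h2 : ∀ᶠ t : ℝ in 𝓝[>] 0, g (u + t • ζ) < g u := by
      filter_upwards [h1.eventually (gt_mem_nhds hζ'), self_mem_nhdsWithin] with t ht ht0
      have ht0' : (0 : ℝ) < t := ht0
      simp only [zero_add, zero_smul, add_zero, smul_eq_mul] at ht
      rw [inv_mul_lt_iff₀ ht0'] at ht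
      linarith
    obtain ⟨τ, hτ, hτ'⟩ := mem_nhdsGT_iff_exists_Ioc_subset.1 h2
    have hτ0 : (0 : ℝ) < τ := hτ
    refine ⟨(g u)⁻¹ * τ, by positivity, fun t ht ht' => ?_⟩
    have h3 : g u * t ∈ Set.Ioc (0 : ℝ) τ := by
      refine ⟨by positivity, ?_⟩
      rw [inv_mul_eq_div, le_div_iff₀ hgu0] at ht'
      linarith
    have h4 : g (u + (g u * t) • ζ) < g u := hτ' h3
    have h5 : w + t • ζ = (g u)⁻¹ • (u + (g u * t) • ζ) + b := by
      rw [hw, smul_add, smul_smul, ← mul_assoc, inv_mul_cancel₀ hgu', one_mul]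
      abel
    rw [h5, ← hgle, hgsm _ _ (inv_nonneg.2 hgu0.le), inv_mul_le_iff₀ hgu0, mul_one]
    exact h4.le
  · have h1 : f w = 1 + f b := by rw [hw, map_add, hfw]
    have h2 : f z₀ = f u + f (z₀ - b - u) + f b := by
      rw [← map_add, ← map_add]; congr 1; abel
    have h3 : -f (z₀ - b - u) ≤ C * ‖z₀ - b - u‖ := by
      rw [← map_neg]
      refine (hfle _).trans ?_
      have h4 := (abs_le.1 (hLip (-(z₀ - b - u)) 0)).2
      have h5 : g 0 = 0 := gauge_zero
      rw [h5, sub_zero, sub_zero, norm_neg] at h4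
      exact h4
    have h6 := (abs_le.1 (hLip (z₀ - b) u)).2
    change f w < f z₀
    rw [h1, h2, hfu]
    linarith

end Pool.Agent.Work.MP_80156a_co
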