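import Mathlib

/-!
# MP_80156a_co: the lighting theorem for bodies which are monotone toward a face of the unit cube
-/

set_option autoImplicit false

namespace Pool.Agent.Work.MP_80156a_co

open scoped Topology

/-- normalized bodies: inside the unit cube, containing the face spanned by the coordinates in `Y`,
monotone in the other coordinates, touching the facets `z i = 1`, `i ∉ Y` -/
structure Norml {ι : Type*} [Fintype ι] (K : Set (ι → ℝ)) (Y : Finset ι) : Prop where
  conv : Convex ℝ K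
  comp : IsCompact K
  nonneg : ∀ z ∈ K, ∀ i, 0 ≤ z i
  le_one : ∀ z ∈ K, ∀ i, z i ≤ 1
  face : ∀ z : ι → ℝ, (∀ j ∈ Y, 0 ≤ z j ∧ z j ≤ 1) → (∀ i, i ∉ Y → z i = 0) → z ∈ K
  down : ∀ z ∈ K, ∀ z' : ι → ℝ, (∀ j ∈ Y, z' j = z j) → (∀ i, i ∉ Y → 0 ≤ z' i ∧ z' i ≤ z i) →
    z' ∈ K
  top : ∀ i, i ∉ Y → ∃ z ∈ K, z i = 1

/-- `v` illuminates the point `z` of `K` -/
def Lit {ι : Type*} [Fintype ι] (K : Set (ι → ℝ)) (z v : ι → ℝ) : Prop :=
  ∃ t : ℝ, 0 < t ∧ z + t • v ∈ interior K

theorem exists_normal {ι : Type*} [Fintype ι] {K : Set (ι → ℝ)} (hc : Convex ℝ K)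
    (hi : (interior K).Nonempty) {z v : ι → ℝ} (hz : z ∈ K) (hl : ¬ Lit K z v) :
    ∃ a : ι → ℝ, a ≠ 0 ∧ (∀ z' ∈ K, ∑ i, a i * z' i ≤ ∑ i, a i * z i) ∧ 0 ≤ ∑ i, a i * v i := by
  classical
  have hray : Convex ℝ ((fun t : ℝ => z + t • v) '' Set.Ioi 0) := by
    rintro _ ⟨t, ht, rfl⟩ _ ⟨t', ht', rfl⟩ α β hα hβ hαβ
    refine ⟨α * t + β * t', ?_, ?_⟩
    · have ht0 : (0 : ℝ) < t := ht
      have ht0' : (0 : ℝ) < t' := ht'
      rcases hα.eq_or_lt with h | h
      · have : β = 1 := by linarith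
        simp only [Set.mem_Ioi, ← h, this]; linarith
      · have h2 : 0 < α * t := by positivity
        have h3 : 0 ≤ β * t' := by positivity
        simp only [Set.mem_Ioi]; linarith
    · have h4 : z = α • z + β • z := by rw [← add_smul, hαβ, one_smul]
      simp only [smul_add, smul_smul, add_smul]
      conv_lhs => rw [h4]
      abel
  have hdisj : Disjoint (interior K) ((fun t : ℝ => z + t • v) '' Set.Ioi 0) := by
    rw [Set.disjoint_left]
    rintro _ h ⟨t, ht, rfl⟩
    exact hl ⟨t, ht, h⟩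
  obtain ⟨f, u, h1, h2⟩ := geometric_hahn_banach_open hc.interior isOpen_interior hray hdisj
  have hrep : ∀ x : ι → ℝ, f x = ∑ i, f (Pi.single i 1) * x i := by
    intro x
    conv_lhs => rw [← Finset.univ_sum_single x]
    rw [map_sum]
    refine Finset.sum_congr rfl fun i _ => ?_
    have : (Pi.single i (x i) : ι → ℝ) = x i • Pi.single i 1 := by
      rw [← Pi.single_smul, smul_eq_mul, mul_one]
    rw [this, map_smul, smul_eq_mul, mul_comm]
  have hKle : ∀ z' ∈ K, f z' ≤ u := by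
    intro z' hz'
    have h3 : z' ∈ closure (interior K) := by
      rw [hc.closure_interior_eq_closure_of_nonempty_interior hi]; exact subset_closure hz'
    have h4 : IsClosed {x | f x ≤ u} := isClosed_le f.continuous continuous_const
    exact closure_minimal (fun x hx => (h1 x hx).le) h4 h3
  have hray' : ∀ t : ℝ, 0 < t → u ≤ f z + t * f v := fun t ht => by
    have := h2 _ ⟨t, ht, rfl⟩
    simpa [map_add, map_smul, smul_eq_mul] using this
  have hfz : f z = u := by
    refine le_antisymm (hKle z hz) (le_of_forall_pos_le_add fun e he => ?_)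
    by_cases hv : f v ≤ 0
    · have := hray' 1 one_pos; linarith
    · push Not at hv
      have := hray' (e / f v) (by positivity)
      rwa [div_mul_cancel₀ _ hv.ne'] at this
  refine ⟨fun i => f (Pi.single i 1), fun h0 => ?_, fun z' hz' => ?_, ?_⟩
  · obtain ⟨x, hx⟩ := hi
    have h3 := h1 x hx
    have h4 : ∀ x, f x = 0 := fun x => by
      rw [hrep x]; exact Finset.sum_eq_zero fun i _ => by rw [congrFun h0 i]; simp
    rw [h4] at h3 hfz
    linarith
  · rw [← hrep, ← hrep, hfz]; exact hKle z' hz'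
  · rw [← hrep]
    have := hray' 1 one_pos
    linarith

section

variable {ι : Type*} [Fintype ι] [DecidableEq ι]

/-- the directions -/
noncomputable def dir (Y : Finset ι) (m : ι → ℝ) (δ ε : ℝ) (s : Finset ι) : ι → ℝ := fun i =>
  if i ∈ Y then δ * (m i - if i ∈ s then 1 else 0) else if i ∈ s then -1 else ε

variable {K : Set (ι → ℝ)} {Y : Finset ι}

/-- a normal which vanishes outside `Y` and on `m - z` is zero -/
theorem normal_zero (hK : Norml K Y) {z a m : ι → ℝ} (hm : ∀ j ∈ Y, 0 < m j ∧ m j < 1)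
    (ha : ∀ z' ∈ K, ∑ i, a i * z' i ≤ ∑ i, a i * z i) (h0 : ∀ i, i ∉ Y → a i = 0)
    (hP : ∑ j ∈ Y, a j * z j ≤ ∑ j ∈ Y, a j * m j) : a = 0 := by
  have hsum : ∀ x : ι → ℝ, ∑ i, a i * x i = ∑ j ∈ Y, a j * x j := fun x => by
    rw [← Finset.sum_subset (Finset.subset_univ Y)]
    intro i _ hi
    rw [h0 i hi, zero_mul]
  have key : ∀ j ∈ Y, ∀ r : ℝ, 0 ≤ r → r ≤ 1 → a j * (r - m j) ≤ 0 := by
    intro j hj r hr0 hr1
    have h1 := ha (fun i => if i ∈ Y then (if i = j then r else m i) else 0)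
      (hK.face _ (fun i hi => by
        simp only [hi, if_true]
        split_ifs
        · exact ⟨hr0, hr1⟩
        · exact ⟨(hm i hi).1.le, (hm i hi).2.le⟩) (fun i hi => by simp [hi]))
    rw [hsum, hsum] at h1
    have h2 : ∑ i ∈ Y, a i * (if i ∈ Y then (if i = j then r else m i) else 0)
        = ∑ i ∈ Y, a i * m i + a j * (r - m j) := by
      rw [← Finset.add_sum_erase Y _ hj, ← Finset.add_sum_erase Y (fun i => a i * m i) hj]
      have h3 : ∑ x ∈ Y.erase j, a x * (if x ∈ Y then (if x = j then r else m x) else 0)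
          = ∑ x ∈ Y.erase j, a x * m x := by
        refine Finset.sum_congr rfl fun i hi => ?_
        rw [if_pos (Finset.mem_of_mem_erase hi), if_neg (Finset.ne_of_mem_erase hi)]
      rw [h3, if_pos hj, if_pos rfl]
      ring
    rw [h2] at h1
    linarith
  funext i
  by_cases hi : i ∈ Y
  · have h1 := key i hi 0 le_rfl zero_le_one
    have h2 := key i hi 1 zero_le_one le_rfl
    obtain ⟨h3, h4⟩ := hm i hi
    have h5 : 0 ≤ a i := by
      by_contra h; push Not at h
      nlinarith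
    have h6 : a i ≤ 0 := by
      by_contra h; push Not at h
      nlinarith
    exact le_antisymm h6 h5
  · exact h0 i hi

/-- Data extracted from a normal `a` at `z` (with `A = s \ Y` the support of `z` outside `Y`). -/
theorem normal_data (hK : Norml K Y) {z a m : ι → ℝ} {κ : ℝ} {s : Finset ι} (hz : z ∈ K)
    (hA : ∀ i, i ∉ Y → (i ∈ s ↔ 0 < z i))
    (ha : ∀ z' ∈ K, ∑ i, a i * z' i ≤ ∑ i, a i * z i)
    (hκ : 0 ≤ κ) (hmκ : (fun i => if i ∈ Y then m i else κ) ∈ K) :
    (∀ i, i ∉ Y → i ∈ s → 0 ≤ a i) ∧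
    (∀ z' ∈ K, ∑ j ∈ Y, a j * z' j + ∑ i ∈ Yᶜ, a i * z' i ≤
      ∑ j ∈ Y, a j * z j + ∑ i ∈ Yᶜ, a i * z i) ∧
    ∑ j ∈ Y, a j * m j + κ * ∑ i ∈ Yᶜ, max (a i) 0 ≤
      ∑ j ∈ Y, a j * z j + ∑ i ∈ Yᶜ, a i * z i := by
  have hsplit : ∀ x : ι → ℝ, ∑ i, a i * x i = ∑ j ∈ Y, a j * x j + ∑ i ∈ Yᶜ, a i * x i := fun x =>
    (Finset.sum_add_sum_compl Y _).symm
  have ha' : ∀ z' ∈ K, ∑ j ∈ Y, a j * z' j + ∑ i ∈ Yᶜ, a i * z' i ≤
      ∑ j ∈ Y, a j * z j + ∑ i ∈ Yᶜ, a i * z i := fun z' hz' => by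
    rw [← hsplit, ← hsplit]; exact ha z' hz'
  refine ⟨fun i hi his => ?_, ha', ?_⟩
  · have hzi := (hA i hi).1 his
    have h1 := ha (Function.update z i 0) (hK.down z hz _ (fun j hj => by
      rw [Function.update_of_ne (fun h => hi (by rw [← h]; exact hj))]) (fun l _ => by
      by_cases hl : l = i
      · subst hl; rw [Function.update_self]; exact ⟨le_rfl, hzi.le⟩
      · rw [Function.update_of_ne hl]; exact ⟨hK.nonneg z hz l, le_rfl⟩))
    rw [← Finset.add_sum_erase _ _ (Finset.mem_univ i),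
      ← Finset.add_sum_erase _ (fun i => a i * z i) (Finset.mem_univ i)] at h1
    have h2 : ∑ x ∈ Finset.univ.erase i, a x * Function.update z i 0 x
        = ∑ x ∈ Finset.univ.erase i, a x * z x :=
      Finset.sum_congr rfl fun l hl => by rw [Function.update_of_ne (Finset.ne_of_mem_erase hl)]
    rw [h2, Function.update_self] at h1
    by_contra hneg
    push Not at hneg
    nlinarith
  · have h1 := ha' (fun i => if i ∈ Y then m i else if 0 < a i then κ else 0)
      (hK.down _ hmκ _ (fun j hj => by simp [hj]) (fun i hi => by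
        simp only [hi, if_false]
        split_ifs
        · exact ⟨hκ, le_rfl⟩
        · exact ⟨le_rfl, hκ⟩))
    have h2 : ∑ j ∈ Y, a j * (if j ∈ Y then m j else if 0 < a j then κ else 0)
        = ∑ j ∈ Y, a j * m j := Finset.sum_congr rfl fun j hj => by rw [if_pos hj]
    have h3 : ∑ i ∈ Yᶜ, a i * (if i ∈ Y then m i else if 0 < a i then κ else 0)
        = κ * ∑ i ∈ Yᶜ, max (a i) 0 := by
      rw [Finset.mul_sum]
      refine Finset.sum_congr rfl fun i hi => ?_
      rw [if_neg (Finset.mem_compl.1 hi)]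
      split_ifs with h
      · rw [max_eq_left h.le, mul_comm]
      · push Not at h
        rw [max_eq_right h, mul_zero, mul_zero]
    rw [h2, h3] at h1
    exact h1

/-- `∑_{i ∉ Y} a i * z i ≤ ∑_{i ∈ s \ Y} a i` -/
theorem sum_le_support {z a : ι → ℝ} {s : Finset ι} (hz1 : ∀ i, z i ≤ 1) (hz0 : ∀ i, 0 ≤ z i)
    (hA : ∀ i, i ∉ Y → (i ∈ s ↔ 0 < z i)) (hpos : ∀ i, i ∉ Y → i ∈ s → 0 ≤ a i) :
    ∑ i ∈ Yᶜ, a i * z i ≤ ∑ i ∈ Yᶜ, (if i ∈ s then a i else 0) := by
  refine Finset.sum_le_sum fun i hi => ?_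
  have hiY := Finset.mem_compl.1 hi
  split_ifs with h
  · have := hpos i hiY h
    nlinarith [hz1 i]
  · have h1 : z i = 0 := le_antisymm (by
      by_contra hcon; push Not at hcon; exact h ((hA i hiY).2 hcon)) (hz0 i)
    rw [h1, mul_zero]

theorem dot_dir (Y : Finset ι) (m a : ι → ℝ) (δ ε : ℝ) (s : Finset ι) :
    ∑ i, a i * dir Y m δ ε s i = δ * (∑ j ∈ Y, a j * m j - ∑ j ∈ Y, a j * (if j ∈ s then 1 else 0))
      - ∑ i ∈ Yᶜ, (if i ∈ s then a i else 0) + ε * ∑ i ∈ Yᶜ, (if i ∈ s then 0 else a i) := by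
  rw [← Finset.sum_add_sum_compl Y]
  have h1 : ∑ i ∈ Y, a i * dir Y m δ ε s i
      = δ * (∑ j ∈ Y, a j * m j - ∑ j ∈ Y, a j * (if j ∈ s then 1 else 0)) := by
    rw [← Finset.sum_sub_distrib, Finset.mul_sum]
    refine Finset.sum_congr rfl fun i hi => ?_
    rw [dir, if_pos hi]; ring
  have h2 : ∑ i ∈ Yᶜ, a i * dir Y m δ ε s i
      = - ∑ i ∈ Yᶜ, (if i ∈ s then a i else 0) + ε * ∑ i ∈ Yᶜ, (if i ∈ s then 0 else a i) := by
    rw [← Finset.sum_neg_distrib, Finset.mul_sum, ← Finset.sum_add_distrib]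
    refine Finset.sum_congr rfl fun i hi => ?_
    rw [dir, if_neg (Finset.mem_compl.1 hi)]
    split_ifs <;> ring
  rw [h1, h2]; ring

theorem light_one (hK : Norml K Y) (hi : (interior K).Nonempty) {z m : ι → ℝ} {κ δ ε η : ℝ}
    {s : Finset ι} (hz : z ∈ K) (hA : ∀ i, i ∉ Y → (i ∈ s ↔ 0 < z i))
    (hm : ∀ j ∈ Y, 0 < m j ∧ m j < 1) (hκ : 0 < κ) (hmκ : (fun i => if i ∈ Y then m i else κ) ∈ K)
    (hη : 0 < η)
    (hin : ∀ j ∈ Y, 0 ≤ z j + η * (z j - if j ∈ s then 1 else 0) ∧
      z j + η * (z j - if j ∈ s then 1 else 0) ≤ 1)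
    (hδ : 0 < δ) (hε : 0 < ε) (h1 : δ * (1 + 1 / η) < 1) (h2 : ε < δ * κ) :
    Lit K z (dir Y m δ ε s) := by
  by_contra hl
  obtain ⟨a, ha0, ha, hav⟩ := exists_normal hK.conv hi hz hl
  obtain ⟨hpos, ha', h3⟩ := normal_data hK hz hA ha hκ.le hmκ
  have h4 := sum_le_support (fun i => hK.le_one z hz i) (fun i => hK.nonneg z hz i) hA hpos
  set G := ∑ i ∈ Yᶜ, a i * z i with hG
  set QA := ∑ i ∈ Yᶜ, (if i ∈ s then a i else 0) with hQA
  set Q := ∑ i ∈ Yᶜ, max (a i) 0 with hQ
  set R := ∑ i ∈ Yᶜ, (if i ∈ s then 0 else a i) with hR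
  set Pm := ∑ j ∈ Y, a j * m j with hPm
  set Pz := ∑ j ∈ Y, a j * z j with hPz
  set Ps := ∑ j ∈ Y, a j * (if j ∈ s then 1 else 0) with hPs
  rw [dot_dir, ← hPm, ← hPs, ← hQA, ← hR] at hav
  have hQA0 : 0 ≤ QA := Finset.sum_nonneg fun i hi' => by
    split_ifs with h
    · exact hpos i (Finset.mem_compl.1 hi') h
    · exact le_rfl
  have hQ0 : 0 ≤ Q := Finset.sum_nonneg fun i _ => le_max_right _ _
  have hRQ : R ≤ Q := Finset.sum_le_sum fun i _ => by
    split_ifs
    · exact le_max_right _ _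
    · exact le_max_left _ _
  have h5 : η * (Pz - Ps) ≤ G := by
    have h6 := ha' (fun i => if i ∈ Y then z i + η * (z i - if i ∈ s then 1 else 0) else 0)
      (hK.face _ (fun j hj => by simp only [hj, if_true]; exact hin j hj)
        (fun i hi' => by simp [hi']))
    have h7 : ∑ j ∈ Y, a j * (if j ∈ Y then z j + η * (z j - if j ∈ s then 1 else 0) else 0)
        = Pz + η * (Pz - Ps) := by
      rw [hPz, hPs, ← Finset.sum_sub_distrib, Finset.mul_sum, ← Finset.sum_add_distrib]
      refine Finset.sum_congr rfl fun j hj => ?_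
      rw [if_pos hj]; ring
    have h8 : ∑ i ∈ Yᶜ, a i * (if i ∈ Y then z i + η * (z i - if i ∈ s then 1 else 0) else 0)
        = 0 := Finset.sum_eq_zero fun i hi' => by rw [if_neg (Finset.mem_compl.1 hi'), mul_zero]
    rw [h7, h8] at h6
    linarith
  have h5' : Pz - Ps ≤ QA / η := by
    rw [le_div_iff₀ hη]; linarith
  have h6 : Pm - Ps ≤ QA - κ * Q + QA / η := by linarith
  have h7 : δ * (Pm - Ps) ≤ δ * (QA - κ * Q + QA / η) := mul_le_mul_of_nonneg_left h6 hδ.le
  have h8 : ε * R ≤ ε * Q := mul_le_mul_of_nonneg_left hRQ hε.le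
  have h9 : δ * (QA - κ * Q + QA / η) = δ * (1 + 1 / η) * QA - δ * κ * Q := by ring
  have h10 : 0 ≤ -(1 - δ * (1 + 1 / η)) * QA - (δ * κ - ε) * Q := by
    rw [h9] at h7; linarith
  have hQA1 : QA = 0 := by
    by_contra hne
    have : 0 < QA := lt_of_le_of_ne hQA0 (Ne.symm hne)
    have h11 : 0 < (1 - δ * (1 + 1 / η)) * QA := mul_pos (by linarith) this
    have h12 : 0 ≤ (δ * κ - ε) * Q := mul_nonneg (by linarith) hQ0
    linarith
  have hQ1 : Q = 0 := by
    by_contra hne
    have : 0 < Q := lt_of_le_of_ne hQ0 (Ne.symm hne)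
    have h12 : 0 < (δ * κ - ε) * Q := mul_pos (by linarith) this
    rw [hQA1, mul_zero] at h10
    linarith
  have hale : ∀ i, i ∉ Y → a i ≤ 0 := by
    intro i hi'
    have h11 := (Finset.sum_eq_zero_iff_of_nonneg (fun i _ => le_max_right (a i) 0)).1 hQ1 i
      (Finset.mem_compl.2 hi')
    have h12 := le_max_left (a i) 0
    linarith
  rw [hQA1, zero_div, add_zero, hQ1, mul_zero, sub_zero] at h6
  have hR0 : 0 ≤ R := by
    have h11 : δ * (Pm - Ps) ≤ 0 := mul_nonpos_of_nonneg_of_nonpos hδ.le h6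
    have h12 : 0 ≤ ε * R := by linarith
    by_contra hneg
    push Not at hneg
    have := mul_neg_of_pos_of_neg hε hneg
    linarith
  have ha0' : ∀ i, i ∉ Y → a i = 0 := by
    intro i hi'
    by_cases his : i ∈ s
    · exact le_antisymm (hale i hi') (hpos i hi' his)
    · have h11 : ∀ l ∈ Yᶜ, (if l ∈ s then 0 else a l) ≤ 0 := fun l hl => by
        split_ifs
        · exact le_rfl
        · exact hale l (Finset.mem_compl.1 hl)
      have h12 : R = 0 := le_antisymm (Finset.sum_nonpos h11) hR0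
      have h13 := (Finset.sum_eq_zero_iff_of_nonpos h11).1 h12 i (Finset.mem_compl.2 hi')
      rwa [if_neg his] at h13
  refine ha0 (normal_zero hK hm ha ha0' ?_)
  have hG0 : G = 0 := Finset.sum_eq_zero fun i hi' => by
    rw [ha0' i (Finset.mem_compl.1 hi'), zero_mul]
  have hRz : R = 0 := Finset.sum_eq_zero fun i hi' => by
    rw [ha0' i (Finset.mem_compl.1 hi')]; simp
  rw [hRz, mul_zero, hQA1, sub_zero, add_zero] at hav
  have h14 : 0 ≤ Pm - Ps := by
    by_contra hneg
    push Not at hneg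
    have := mul_neg_of_pos_of_neg hδ hneg
    linarith
  have h15 : Pz - Ps ≤ 0 := by
    rw [hG0] at h5
    by_contra hneg
    push Not at hneg
    have := mul_pos hη hneg
    linarith
  linarith

theorem light_two (hK : Norml K Y) (hi : (interior K).Nonempty) {z m : ι → ℝ} {κ δ ε θ N r : ℝ}
    {s J : Finset ι} (hz : z ∈ K) (hA : ∀ i, i ∉ Y → (i ∈ s ↔ 0 < z i))
    (hm : ∀ j ∈ Y, 0 < m j ∧ m j < 1) (hκ : 0 < κ) (hmκ : (fun i => if i ∈ Y then m i else κ) ∈ K)
    (hnear : ∀ j ∈ Y, |z j - if j ∈ s then 1 else 0| ≤ 1 / 2)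
    {i : ι} (hiY : i ∉ Y) (his : i ∈ s) (hN : 0 < N) (hNr : (N + 1) * r ≤ 1)
    (hr : ∀ j ∈ Y, j ∉ J → |z j - if j ∈ s then 1 else 0| ≤ r)
    (hJ : ∀ y : ι → ℝ, (∀ j ∈ Y, j ∉ J → y j = z j) → (∀ j ∈ Y, 0 ≤ y j ∧ y j ≤ 1) →
      y i = z i → (∀ l, l ∉ Y → l ≠ i → y l = 0) → y ∈ K)
    (hmi : (fun l => if l ∈ Y then m l else if l = i then 1 - θ else 0) ∈ K)
    (hδ : 0 < δ) (hδ4 : δ ≤ 1 / 4) (hε : 0 < ε) (h2 : ε ≤ δ * κ / 2)
    (hl : ¬ Lit K z (dir Y m δ ε (s.erase i))) :
    1 - θ - 8 * δ - 8 * ε / (δ * κ) - 2 / N ≤ z i := by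
  obtain ⟨a, ha0, ha, hav⟩ := exists_normal hK.conv hi hz hl
  obtain ⟨hpos, ha', h3⟩ := normal_data hK hz hA ha hκ.le hmκ
  have hi' : i ∈ Yᶜ := Finset.mem_compl.2 hiY
  have hz0 := hK.nonneg z hz
  have hz1 := hK.le_one z hz
  have hai : 0 ≤ a i := hpos i hiY his
  set G := ∑ i ∈ Yᶜ, a i * z i with hG
  set Q := ∑ i ∈ Yᶜ, max (a i) 0 with hQ
  set Pm := ∑ j ∈ Y, a j * m j with hPm
  set Pz := ∑ j ∈ Y, a j * z j with hPz
  set Ps := ∑ j ∈ Y, a j * (if j ∈ s then 1 else 0) with hPs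
  -- the direction is that of `s.erase i`
  set QA := ∑ l ∈ Yᶜ.erase i, (if l ∈ s then a l else 0) with hQA
  set R := ∑ l ∈ Yᶜ.erase i, (if l ∈ s then 0 else a l) with hR
  have hav' : 0 ≤ δ * (Pm - Ps) - QA + ε * (a i + R) := by
    rw [dot_dir] at hav
    have h4 : ∑ j ∈ Y, a j * (if j ∈ s.erase i then 1 else 0) = Ps :=
      Finset.sum_congr rfl fun j hj => by
        have : j ≠ i := fun h => hiY (h ▸ hj)
        simp [this]
    have h5 : ∑ l ∈ Yᶜ, (if l ∈ s.erase i then a l else 0) = QA := by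
      rw [← Finset.add_sum_erase _ _ hi', if_neg (Finset.notMem_erase i s), zero_add]
      refine Finset.sum_congr rfl fun l hl' => ?_
      simp [Finset.ne_of_mem_erase hl']
    have h6 : ∑ l ∈ Yᶜ, (if l ∈ s.erase i then 0 else a l) = a i + R := by
      rw [← Finset.add_sum_erase _ _ hi', if_neg (Finset.notMem_erase i s)]
      congr 1
      refine Finset.sum_congr rfl fun l hl' => ?_
      simp [Finset.ne_of_mem_erase hl']
    rw [h4, h5, h6, ← hPm] at hav
    exact hav
  have hQA0 : 0 ≤ QA := Finset.sum_nonneg fun l hl' => by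
    split_ifs with h
    · exact hpos l (Finset.mem_compl.1 (Finset.mem_of_mem_erase hl')) h
    · exact le_rfl
  have hQ0 : 0 ≤ Q := Finset.sum_nonneg fun i _ => le_max_right _ _
  have hRQ : a i + R ≤ Q := by
    rw [hQ, ← Finset.add_sum_erase _ _ hi']
    refine add_le_add (le_max_left _ _) (Finset.sum_le_sum fun l _ => ?_)
    split_ifs
    · exact le_max_right _ _
    · exact le_max_left _ _
  have hGle : G ≤ a i * z i + QA := by
    rw [hG, ← Finset.add_sum_erase _ _ hi']
    refine add_le_add le_rfl (Finset.sum_le_sum fun l hl' => ?_)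
    have hlY := Finset.mem_compl.1 (Finset.mem_of_mem_erase hl')
    split_ifs with h
    · have := hpos l hlY h
      nlinarith [hz1 l]
    · have h1 : z l = 0 := le_antisymm (by
        by_contra hcon; push Not at hcon; exact h ((hA l hlY).2 hcon)) (hz0 l)
      rw [h1, mul_zero]
  have haz : a i * z i ≤ a i := by nlinarith [hz1 i]
  have hGle' : G ≤ a i + QA := by linarith
  -- the point `2 z - s`
  have h5 : Pz - Ps ≤ G := by
    have h6 := ha' (fun i => if i ∈ Y then z i + (z i - if i ∈ s then 1 else 0) else 0)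
      (hK.face _ (fun j hj => by
        simp only [hj, if_true]
        have h7 := abs_le.1 (hnear j hj)
        split_ifs at h7 ⊢ <;> constructor <;> linarith [h7.1, h7.2, hz0 j, hz1 j])
        (fun i hi' => by simp [hi']))
    have h7 : ∑ j ∈ Y, a j * (if j ∈ Y then z j + (z j - if j ∈ s then 1 else 0) else 0)
        = Pz + (Pz - Ps) := by
      rw [hPz, hPs, ← Finset.sum_sub_distrib, ← Finset.sum_add_distrib]
      refine Finset.sum_congr rfl fun j hj => ?_
      rw [if_pos hj]; ring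
    have h8 : ∑ i ∈ Yᶜ, a i * (if i ∈ Y then z i + (z i - if i ∈ s then 1 else 0) else 0)
        = 0 := Finset.sum_eq_zero fun i hi' => by rw [if_neg (Finset.mem_compl.1 hi'), mul_zero]
    rw [h7, h8] at h6
    linarith
  have h6 : Pm - Ps ≤ 2 * G - κ * Q := by linarith
  have hδκ : 0 < δ * κ := mul_pos hδ hκ
  -- first estimate
  have h7 : QA + (δ * κ / 2) * Q ≤ 2 * δ * (a i + QA) := by
    have h8 : δ * (Pm - Ps) ≤ δ * (2 * (a i + QA) - κ * Q) :=
      mul_le_mul_of_nonneg_left (by linarith) hδ.le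
    have h9 : ε * (a i + R) ≤ ε * Q := mul_le_mul_of_nonneg_left hRQ hε.le
    have h10 : ε * Q ≤ δ * κ / 2 * Q := mul_le_mul_of_nonneg_right h2 hQ0
    have h11 : δ * (2 * (a i + QA) - κ * Q) = 2 * δ * (a i + QA) - δ * κ * Q := by ring
    rw [h11] at h8
    linarith
  have hκQ0 : 0 ≤ (δ * κ / 2) * Q := by positivity
  have hQA4 : QA ≤ 4 * δ * a i := by
    have h8 : QA ≤ 2 * δ * (a i + QA) := by linarith
    have h9 : 2 * δ * QA ≤ 1 / 2 * QA := mul_le_mul_of_nonneg_right (by linarith) hQA0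
    have h10 : 2 * δ * (a i + QA) = 2 * δ * a i + 2 * δ * QA := by ring
    linarith
  have hQA1 : QA ≤ a i := by
    have : 4 * δ * a i ≤ 1 * a i := mul_le_mul_of_nonneg_right (by linarith) hai
    linarith
  have hκQ : κ * Q ≤ 8 * a i := by
    have h8 : (δ * κ / 2) * Q ≤ 2 * δ * (2 * a i) := by
      have h9 : 2 * δ * (a i + QA) ≤ 2 * δ * (2 * a i) :=
        mul_le_mul_of_nonneg_left (by linarith) (by linarith)
      linarith
    have h10 : δ * (κ * Q) ≤ δ * (8 * a i) := by
      have h11 : (δ * κ / 2) * Q = δ * (κ * Q) / 2 := by ring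
      have h12 : 2 * δ * (2 * a i) = δ * (8 * a i) / 2 := by ring
      rw [h11, h12] at h8
      linarith
    exact le_of_mul_le_mul_left h10 hδ
  -- `a i > 0`
  have hai0 : 0 < a i := by
    refine lt_of_le_of_ne hai fun hai0 => ?_
    rw [← hai0, mul_zero] at hQA4 hκQ
    have hQAz : QA = 0 := le_antisymm hQA4 hQA0
    have hQz : Q = 0 := by
      refine le_antisymm ?_ hQ0
      by_contra hneg
      push Not at hneg
      have := mul_pos hκ hneg
      linarith
    have hale : ∀ l, l ∉ Y → a l ≤ 0 := by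
      intro l hl'
      have h11 := (Finset.sum_eq_zero_iff_of_nonneg (fun i _ => le_max_right (a i) 0)).1 hQz l
        (Finset.mem_compl.2 hl')
      have h12 := le_max_left (a l) 0
      linarith
    have hG0 : G ≤ 0 := by rw [← hai0, hQAz] at hGle; linarith
    have h12 : Pm - Ps ≤ 0 := by rw [hQz, mul_zero] at h6; linarith
    have h13 : δ * (Pm - Ps) ≤ 0 := mul_nonpos_of_nonneg_of_nonpos hδ.le h12
    rw [hQAz, ← hai0, zero_add, sub_zero] at hav'
    have hR0 : 0 ≤ R := by
      by_contra hneg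
      push Not at hneg
      have := mul_neg_of_pos_of_neg hε hneg
      linarith
    have ha0' : ∀ l, l ∉ Y → a l = 0 := by
      intro l hl'
      by_cases hls : l ∈ s
      · exact le_antisymm (hale l hl') (hpos l hl' hls)
      · have hli : l ≠ i := fun h => hls (h ▸ his)
        have h11 : ∀ l ∈ Yᶜ.erase i, (if l ∈ s then 0 else a l) ≤ 0 := fun l hl => by
          split_ifs
          · exact le_rfl
          · exact hale l (Finset.mem_compl.1 (Finset.mem_of_mem_erase hl))
        have h12 : R = 0 := le_antisymm (Finset.sum_nonpos h11) hR0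
        have h13 := (Finset.sum_eq_zero_iff_of_nonpos h11).1 h12 l
          (Finset.mem_erase.2 ⟨hli, Finset.mem_compl.2 hl'⟩)
        rwa [if_neg hls] at h13
    refine ha0 (normal_zero hK hm ha ha0' ?_)
    have hRz : R = 0 := Finset.sum_eq_zero fun l hl' => by
      rw [ha0' l (Finset.mem_compl.1 (Finset.mem_of_mem_erase hl'))]; simp
    rw [hRz, mul_zero, add_zero] at hav'
    have h14 : 0 ≤ Pm - Ps := by
      by_contra hneg
      push Not at hneg
      have := mul_neg_of_pos_of_neg hδ hneg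
      linarith
    linarith
  -- lower bound for `Pm - Ps`
  have h8 : -(8 * ε / (δ * κ)) * a i ≤ Pm - Ps := by
    have h9 : ε * (a i + R) ≤ ε * Q := mul_le_mul_of_nonneg_left hRQ hε.le
    have h10 : -(ε * Q) ≤ δ * (Pm - Ps) := by linarith
    have h11 : ε * (κ * Q) ≤ ε * (8 * a i) := mul_le_mul_of_nonneg_left hκQ hε.le
    have h12 : -(ε * (8 * a i)) ≤ κ * (δ * (Pm - Ps)) := by
      have h13 : κ * -(ε * Q) ≤ κ * (δ * (Pm - Ps)) := mul_le_mul_of_nonneg_left h10 hκ.le
      have h14 : κ * -(ε * Q) = -(ε * (κ * Q)) := by ring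
      rw [h14] at h13
      linarith
    have h15 : -(8 * ε / (δ * κ)) * a i = -(ε * (8 * a i)) / (δ * κ) := by ring
    rw [h15, div_le_iff₀ hδκ]
    linarith
  -- the point over `m`
  have h9 : Pm + (1 - θ) * a i ≤ Pz + a i * z i + QA := by
    have h10 := ha' _ hmi
    have h11 : ∑ j ∈ Y, a j * (if j ∈ Y then m j else if j = i then 1 - θ else 0) = Pm :=
      Finset.sum_congr rfl fun j hj => by rw [if_pos hj]
    have h12 : ∑ l ∈ Yᶜ, a l * (if l ∈ Y then m l else if l = i then 1 - θ else 0)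
        = (1 - θ) * a i := by
      rw [← Finset.add_sum_erase _ _ hi', if_neg hiY, if_pos rfl]
      have : ∑ l ∈ Yᶜ.erase i, a l * (if l ∈ Y then m l else if l = i then 1 - θ else 0) = 0 :=
        Finset.sum_eq_zero fun l hl' => by
          rw [if_neg (Finset.mem_compl.1 (Finset.mem_of_mem_erase hl')),
            if_neg (Finset.ne_of_mem_erase hl'), mul_zero]
      rw [this]; ring
    rw [h11, h12] at h10
    linarith
  -- the coordinates in `J`
  set PJ := ∑ j ∈ Y, a j * (if j ∈ J then (z j - if j ∈ s then 1 else 0) else 0) with hPJ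
  set PN := ∑ j ∈ Y, a j * (if j ∈ J then 0 else (z j - if j ∈ s then 1 else 0)) with hPN
  have hPP : Pz - Ps = PJ + PN := by
    rw [hPz, hPs, hPJ, hPN, ← Finset.sum_sub_distrib, ← Finset.sum_add_distrib]
    refine Finset.sum_congr rfl fun j _ => ?_
    split_ifs <;> ring
  have h10 : PJ ≤ QA := by
    have h11 := ha' (fun l => if l ∈ Y then z l + (if l ∈ J then (z l - if l ∈ s then 1 else 0)
        else 0) else if l = i then z i else 0)
      (hJ _ (fun j hj hjJ => by simp only [hj, if_true, hjJ, if_false, add_zero])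
        (fun j hj => by
          simp only [hj, if_true]
          have h7 := abs_le.1 (hnear j hj)
          have h12 := hz0 j
          have h13 := hz1 j
          split_ifs at h7 ⊢ <;> constructor <;> linarith [h7.1, h7.2])
        (by simp only [hiY, if_false, if_true])
        (fun l hl' hli => by simp only [hl', if_false, hli]))
    have h12 : ∑ j ∈ Y, a j * (if j ∈ Y then z j + (if j ∈ J then (z j - if j ∈ s then 1 else 0)
        else 0) else if j = i then z i else 0) = Pz + PJ := by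
      rw [hPz, hPJ, ← Finset.sum_add_distrib]
      refine Finset.sum_congr rfl fun j hj => ?_
      rw [if_pos hj]; ring
    have h13 : ∑ l ∈ Yᶜ, a l * (if l ∈ Y then z l + (if l ∈ J then (z l - if l ∈ s then 1 else 0)
        else 0) else if l = i then z i else 0) = a i * z i := by
      rw [← Finset.add_sum_erase _ _ hi', if_neg hiY, if_pos rfl]
      have : ∑ l ∈ Yᶜ.erase i, a l * (if l ∈ Y then z l + (if l ∈ J then
          (z l - if l ∈ s then 1 else 0) else 0) else if l = i then z i else 0) = 0 :=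
        Finset.sum_eq_zero fun l hl' => by
          rw [if_neg (Finset.mem_compl.1 (Finset.mem_of_mem_erase hl')),
            if_neg (Finset.ne_of_mem_erase hl'), mul_zero]
      rw [this]; ring
    rw [h12, h13] at h11
    linarith
  -- the other coordinates
  have h11 : N * PN ≤ 2 * a i := by
    have h12 := ha' (fun l => if l ∈ Y then z l + (if l ∈ J then 0 else
        N * (z l - if l ∈ s then 1 else 0)) else 0)
      (hK.face _ (fun j hj => by
        simp only [hj, if_true]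
        have h12 := hz0 j
        have h13 := hz1 j
        by_cases hjJ : j ∈ J
        · simp only [hjJ, if_true]; constructor <;> linarith
        · simp only [hjJ, if_false]
          have h7 := abs_le.1 (hr j hj hjJ)
          have hr0 : 0 ≤ r := (abs_nonneg _).trans (hr j hj hjJ)
          split_ifs at h7 ⊢ with hjs
          · constructor
            · nlinarith [h7.1, h7.2]
            · nlinarith [h7.1, h7.2]
          · constructor
            · nlinarith [h7.1, h7.2]
            · nlinarith [h7.1, h7.2])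
        (fun i hi' => by simp [hi']))
    have h13 : ∑ j ∈ Y, a j * (if j ∈ Y then z j + (if j ∈ J then 0 else
        N * (z j - if j ∈ s then 1 else 0)) else 0) = Pz + N * PN := by
      rw [hPz, hPN, Finset.mul_sum, ← Finset.sum_add_distrib]
      refine Finset.sum_congr rfl fun j hj => ?_
      rw [if_pos hj]
      split_ifs <;> ring
    have h14 : ∑ l ∈ Yᶜ, a l * (if l ∈ Y then z l + (if l ∈ J then 0 else
        N * (z l - if l ∈ s then 1 else 0)) else 0) = 0 :=
      Finset.sum_eq_zero fun i hi' => by rw [if_neg (Finset.mem_compl.1 hi'), mul_zero]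
    rw [h13, h14] at h12
    linarith
  have h11' : PN ≤ 2 / N * a i := by
    rw [div_mul_eq_mul_div, le_div_iff₀ hN]; linarith
  -- conclusion
  have h12 : -(8 * ε / (δ * κ)) * a i ≤ (z i - 1 + θ + 8 * δ + 2 / N) * a i := by
    have h13 : Pm - Ps ≤ a i * z i + QA - (1 - θ) * a i + QA + 2 / N * a i := by linarith
    have h14 : QA + QA ≤ 8 * δ * a i := by linarith
    have h15 : (z i - 1 + θ + 8 * δ + 2 / N) * a i
        = a i * z i - (1 - θ) * a i + 8 * δ * a i + 2 / N * a i := by ring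
    rw [h15]
    linarith
  have h13 := le_of_mul_le_mul_right h12 hai0
  linarith

/-- separation by compactness -/
theorem exists_gap (hK : Norml K Y) {S J c : Finset ι}
    (h5 : ∀ p ∈ K, (∀ j ∈ Y, j ∉ J → p j = if j ∈ c then 1 else 0) → (∀ i ∈ S, 1 ≤ p i) → False) :
    ∃ ρ : ℝ, 0 < ρ ∧ ∀ p ∈ K, (∀ j ∈ Y, j ∉ J → |p j - if j ∈ c then 1 else 0| ≤ ρ) →
      (∀ i ∈ S, 1 - ρ ≤ p i) → False := by
  rcases K.eq_empty_or_nonempty with hne | hne
  · exact ⟨1, one_pos, fun p hp => by rw [hne] at hp; exact absurd hp (Set.notMem_empty p)⟩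
  set φ : (ι → ℝ) → ℝ := fun p => ∑ j ∈ Y \ J, |p j - if j ∈ c then 1 else 0| +
    ∑ i ∈ S, max (1 - p i) 0 with hφ
  have hcont : Continuous φ := by
    refine Continuous.add (continuous_finsetSum _ fun j _ => ?_)
      (continuous_finsetSum _ fun i _ => ?_)
    · exact ((continuous_apply j).sub continuous_const).abs
    · exact (continuous_const.sub (continuous_apply i)).max continuous_const
  obtain ⟨p₀, hp₀, hmin⟩ := hK.comp.exists_isMinOn hne hcont.continuousOn
  have hφ0 : ∀ p, 0 ≤ φ p := fun p => add_nonneg (Finset.sum_nonneg fun j _ => abs_nonneg _)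
    (Finset.sum_nonneg fun i _ => le_max_right _ _)
  have hpos : 0 < φ p₀ := by
    refine lt_of_le_of_ne (hφ0 p₀) fun h0 => ?_
    have h1 : ∑ j ∈ Y \ J, |p₀ j - if j ∈ c then 1 else 0| = 0 := le_antisymm (by
      have := Finset.sum_nonneg (s := S) (f := fun i => max (1 - p₀ i) 0)
        fun i _ => le_max_right _ _
      simp only [hφ] at h0
      linarith) (Finset.sum_nonneg fun j _ => abs_nonneg _)
    have h2 : ∑ i ∈ S, max (1 - p₀ i) 0 = 0 := by
      simp only [hφ] at h0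
      linarith
    refine h5 p₀ hp₀ (fun j hj hjJ => ?_) fun i hi => ?_
    · have h3 := (Finset.sum_eq_zero_iff_of_nonneg (fun j _ => abs_nonneg
        (p₀ j - if j ∈ c then 1 else 0))).1 h1 j (Finset.mem_sdiff.2 ⟨hj, hjJ⟩)
      exact sub_eq_zero.1 (abs_eq_zero.1 h3)
    · have h3 := (Finset.sum_eq_zero_iff_of_nonneg (fun i _ => le_max_right (1 - p₀ i) 0)).1 h2 i hi
      have h4 := le_max_left (1 - p₀ i) 0
      linarith
  have hn : (0 : ℝ) < (Y \ J).card + S.card + 1 := by positivity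
  refine ⟨φ p₀ / ((Y \ J).card + S.card + 1), by positivity, fun p hp hj hi => ?_⟩
  set ρ := φ p₀ / ((Y \ J).card + S.card + 1) with hρ
  have hρ0 : 0 < ρ := by positivity
  have h1 : ∑ j ∈ Y \ J, |p j - if j ∈ c then 1 else 0| ≤ (Y \ J).card * ρ := by
    rw [← nsmul_eq_mul]
    exact Finset.sum_le_card_nsmul _ _ _ fun j hj' =>
      hj j (Finset.mem_sdiff.1 hj').1 (Finset.mem_sdiff.1 hj').2
  have h2 : ∑ i ∈ S, max (1 - p i) 0 ≤ S.card * ρ := by
    rw [← nsmul_eq_mul]
    exact Finset.sum_le_card_nsmul _ _ _ fun i hi' =>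
      max_le (by have := hi i hi'; linarith) hρ0.le
  have h3 : φ p₀ ≤ φ p := hmin hp
  have h4 : ρ * ((Y \ J).card + S.card + 1) = φ p₀ := by
    rw [hρ]; field_simp
  have h5 : φ p ≤ (Y \ J).card * ρ + S.card * ρ := add_le_add h1 h2
  nlinarith

open scoped Classical in
/-- **The lighting theorem.** -/
theorem lighting (hK : Norml K Y) (hi : (interior K).Nonempty) {S J : Finset ι}
    {C : Finset (Finset ι)} (hS : ∀ i ∈ S, i ∉ Y)
    (hJ : ∀ i ∈ S, ∀ z y : ι → ℝ, z ∈ K → (∀ l, l ∉ Y → l ≠ i → z l = 0) →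
      (∀ j ∈ Y, j ∉ J → y j = z j) → (∀ j ∈ Y, 0 ≤ y j ∧ y j ≤ 1) →
      y i = z i → (∀ l, l ∉ Y → l ≠ i → y l = 0) → y ∈ K)
    (hm : ∀ θ : ℝ, 0 < θ → θ < 1 → ∃ (m : ι → ℝ) (κ : ℝ), (∀ j ∈ Y, 0 < m j ∧ m j < 1) ∧ 0 < κ ∧
      (fun i => if i ∈ Y then m i else κ) ∈ K ∧
      ∀ i ∈ S, (fun l => if l ∈ Y then m l else if l = i then 1 - θ else 0) ∈ K)
    (h4 : ∀ c ∈ C, ∀ c', c' ⊆ Y → ∀ j ∈ Y, j ∉ J → (∀ l, l ≠ j → (l ∈ c' ↔ l ∈ c)) →
      (j ∈ c' ↔ j ∉ c) → c' ∉ C)
    (h5 : ∀ c ∈ C, ∀ p ∈ K, (∀ j ∈ Y, j ∉ J → p j = if j ∈ c then 1 else 0) →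
      (∀ i ∈ S, 1 ≤ p i) → False) :
    ∃ L : Finset (ι → ℝ), L.card ≤ (Finset.univ.filter fun s : Finset ι =>
        ¬ (s ∩ Y ∈ C ∧ S ⊆ s)).card ∧
      ∀ z ∈ K, ∃ v ∈ L, Lit K z v := by
  -- the gap
  have hgap : ∃ ρ : ℝ, 0 < ρ ∧ ρ ≤ 1 ∧ ∀ c ∈ C, ∀ p ∈ K,
      (∀ j ∈ Y, j ∉ J → |p j - if j ∈ c then 1 else 0| ≤ ρ) → (∀ i ∈ S, 1 - ρ ≤ p i) → False := by
    have h1 : ∀ c : Finset ι, ∃ ρ : ℝ, 0 < ρ ∧ (c ∈ C → ∀ p ∈ K,
        (∀ j ∈ Y, j ∉ J → |p j - if j ∈ c then 1 else 0| ≤ ρ) →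
          (∀ i ∈ S, 1 - ρ ≤ p i) → False) := by
      intro c
      by_cases hc : c ∈ C
      · obtain ⟨ρ, h6, h7⟩ := exists_gap hK (h5 c hc)
        exact ⟨ρ, h6, fun _ => h7⟩
      · exact ⟨1, one_pos, fun h => absurd h hc⟩
    choose ρ hρ0 hρ using h1
    obtain ⟨c₀, -, hc₀⟩ := Finset.exists_min_image (Finset.univ : Finset (Finset ι)) ρ
      ⟨∅, Finset.mem_univ _⟩
    refine ⟨min (ρ c₀) 1, lt_min (hρ0 _) one_pos, min_le_right _ _, fun c hc p hp h6 h7 => ?_⟩
    have h8 : min (ρ c₀) 1 ≤ ρ c := (min_le_left _ _).trans (hc₀ c (Finset.mem_univ _))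
    exact hρ c hc p hp (fun j hj hjJ => (h6 j hj hjJ).trans h8)
      fun i hi' => by have := h7 i hi'; linarith
  obtain ⟨ρ, hρ0, hρ1, hρ⟩ := hgap
  obtain ⟨m, κ, hm0, hκ, hmκ, hmi⟩ := hm (ρ / 4) (by linarith) (by linarith)
  -- parameters
  set N : ℝ := 8 / ρ with hN
  have hN0 : 0 < N := by positivity
  set r : ℝ := min ρ (min (1 / (N + 1)) (1 / 2)) with hr
  have hr0 : 0 < r := lt_min hρ0 (lt_min (by positivity) (by norm_num))
  have hrρ : r ≤ ρ := min_le_left _ _
  have hrN : r ≤ 1 / (N + 1) := (min_le_right _ _).trans (min_le_left _ _)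
  have hr2 : r ≤ 1 / 2 := (min_le_right _ _).trans (min_le_right _ _)
  set δ : ℝ := min (ρ / 32) (r / 4) with hδ
  have hδ0 : 0 < δ := lt_min (by positivity) (by positivity)
  have hδρ : δ ≤ ρ / 32 := min_le_left _ _
  have hδr : δ ≤ r / 4 := min_le_right _ _
  set ε : ℝ := δ * κ * (ρ / 64) with hε
  have hδκ : 0 < δ * κ := mul_pos hδ0 hκ
  have hε0 : 0 < ε := by positivity
  have hε2 : ε ≤ δ * κ / 2 := by rw [hε]; nlinarith
  have hε1 : ε < δ * κ := by linarith
  refine ⟨(Finset.univ.filter fun s : Finset ι => ¬ (s ∩ Y ∈ C ∧ S ⊆ s)).image (dir Y m δ ε),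
    Finset.card_image_le, fun z hz => ?_⟩
  have hz0 := hK.nonneg z hz
  have hz1 := hK.le_one z hz
  set c : Finset ι := Y.filter fun j => 1 / 2 < z j with hc
  set s : Finset ι := Finset.univ.filter fun i => (i ∈ Y ∧ 1 / 2 < z i) ∨ (i ∉ Y ∧ 0 < z i) with hs
  have hsc : s ∩ Y = c := by
    ext i
    simp only [hs, hc, Finset.mem_inter, Finset.mem_filter, Finset.mem_univ, true_and]
    tauto
  have hA : ∀ i, i ∉ Y → (i ∈ s ↔ 0 < z i) := by
    intro i hi'
    simp only [hs, Finset.mem_filter, Finset.mem_univ, true_and]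
    tauto
  have hsY : ∀ j ∈ Y, (j ∈ s ↔ 1 / 2 < z j) := by
    intro j hj
    simp only [hs, Finset.mem_filter, Finset.mem_univ, true_and]
    tauto
  have hnear : ∀ j ∈ Y, |z j - if j ∈ s then 1 else 0| ≤ 1 / 2 := by
    intro j hj
    rw [abs_le]
    split_ifs with h
    · rw [hsY j hj] at h
      constructor <;> linarith [hz1 j]
    · rw [hsY j hj] at h
      push Not at h
      constructor <;> linarith [hz0 j]
  have mem : ∀ s' : Finset ι, ¬ (s' ∩ Y ∈ C ∧ S ⊆ s') → dir Y m δ ε s' ∈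
      (Finset.univ.filter fun s : Finset ι => ¬ (s ∩ Y ∈ C ∧ S ⊆ s)).image (dir Y m δ ε) :=
    fun s' hs' => Finset.mem_image_of_mem _ (Finset.mem_filter.2 ⟨Finset.mem_univ _, hs'⟩)
  by_cases hsR : s ∩ Y ∈ C ∧ S ⊆ s
  · obtain ⟨hsC, hSs⟩ := hsR
    by_cases hfar : ∃ j ∈ Y, j ∉ J ∧ r < |z j - if j ∈ s then 1 else 0|
    · -- flip the coordinate `j`
      obtain ⟨j, hj, hjJ, hjr⟩ := hfar
      set s' : Finset ι := Finset.univ.filter fun i => if i = j then j ∉ s else i ∈ s with hs'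
      have hs'j : j ∈ s' ↔ j ∉ s := by simp [hs']
      have hs'l : ∀ l, l ≠ j → (l ∈ s' ↔ l ∈ s) := fun l hl => by simp [hs', hl]
      have hs'C : s' ∩ Y ∉ C := by
        refine h4 _ hsC _ Finset.inter_subset_right j hj hjJ (fun l hl => ?_) ?_
        · rw [Finset.mem_inter, Finset.mem_inter, hs'l l hl]
        · rw [Finset.mem_inter, Finset.mem_inter, hs'j]
          tauto
      refine ⟨_, mem s' (fun h => hs'C h.1), ?_⟩
      refine light_one hK hi hz (fun i hi' => ?_) hm0 hκ hmκ hr0 (fun l hl => ?_) hδ0 hε0 ?_ hε1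
      · have : i ≠ j := fun h => hi' (h ▸ hj)
        rw [hs'l i this]; exact hA i hi'
      · by_cases hlj : l = j
        · subst hlj
          have h7 : r < |z l - if l ∈ s then 1 else 0| := hjr
          by_cases hls : l ∈ s
          · rw [if_pos hls, abs_sub_comm, abs_of_nonneg (by linarith [hz1 l])] at h7
            have h8 : l ∉ s' := fun h => (hs'j.1 h) hls
            rw [if_neg h8]
            constructor
            · nlinarith [hz0 l]
            · nlinarith [hz0 l, hz1 l]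
          · rw [if_neg hls, sub_zero, abs_of_nonneg (hz0 l)] at h7
            have h8 : l ∈ s' := hs'j.2 hls
            rw [if_pos h8]
            constructor
            · nlinarith [hz0 l, hz1 l]
            · nlinarith [hz0 l, hz1 l]
        · have h7 := abs_le.1 (hnear l hl)
          have h8 : (if l ∈ s' then (1 : ℝ) else 0) = if l ∈ s then 1 else 0 := by
            simp only [hs'l l hlj]
          rw [h8]
          split_ifs at h7 ⊢
          · constructor
            · nlinarith [hz0 l, hz1 l, h7.1, h7.2]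
            · nlinarith [hz0 l, hz1 l, h7.1, h7.2]
          · constructor
            · nlinarith [hz0 l, hz1 l, h7.1, h7.2]
            · nlinarith [hz0 l, hz1 l, h7.1, h7.2]
      · have h7 : δ * (1 / r) ≤ 1 / 4 := by
          rw [mul_one_div, div_le_iff₀ hr0]; linarith
        have h8 : δ ≤ 1 / 8 := by linarith
        nlinarith
    · -- all coordinates outside `J` are close to `c`
      push Not at hfar
      by_contra hcon
      refine hρ c (hsc ▸ hsC) z hz (fun j hj hjJ => ?_) fun i hiS => ?_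
      · have h7 := hfar j hj hjJ
        have h8 : (if j ∈ c then (1 : ℝ) else 0) = if j ∈ s then 1 else 0 := by
          have : j ∈ c ↔ j ∈ s := by rw [← hsc, Finset.mem_inter]; tauto
          simp only [this]
        rw [h8]
        exact h7.trans hrρ
      · have hiY := hS i hiS
        have his := hSs hiS
        have hnl : ¬ Lit K z (dir Y m δ ε (s.erase i)) :=
          fun hl => hcon ⟨_, mem _ fun h => Finset.notMem_erase i s (h.2 hiS), hl⟩
        have h7 := light_two (N := N) (θ := ρ / 4) hK hi hz hA hm0 hκ hmκ hnear hiY his hN0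
          (r := r) (by
            rw [le_div_iff₀ (by positivity)] at hrN; linarith) (J := J) hfar
          (fun y h8 h9 h10 h11 => by
            refine hJ i hiS (fun l => if l ∈ Y then z l else if l = i then z i else 0) y
              (hK.down z hz _ (fun j hj => by simp [hj]) (fun l hl => ?_))
              (fun l hl hli => by simp [hl, hli])
              (fun j hj hjJ => by simp only [hj, if_true]; exact h8 j hj hjJ) h9
              (by simp only [hiY, if_false, if_true]; exact h10) h11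
            simp only [hl, if_false]
            split_ifs with hli
            · rw [hli]; exact ⟨hz0 i, le_rfl⟩
            · exact ⟨le_rfl, hz0 l⟩)
          (hmi i hiS) hδ0 (by linarith) hε0 hε2 hnl
        have h8 : 8 * ε / (δ * κ) = ρ / 8 := by
          rw [hε]; field_simp; ring
        have h9 : 2 / N = ρ / 4 := by
          rw [hN]; field_simp; ring
        rw [h8, h9] at h7
        linarith
  · refine ⟨_, mem s hsR, light_one hK hi hz hA hm0 hκ hmκ one_pos (fun j hj => ?_) hδ0 hε0 ?_ hε1⟩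
    · have h7 := abs_le.1 (hnear j hj)
      split_ifs at h7 ⊢ <;> constructor <;> linarith [h7.1, h7.2, hz0 j, hz1 j]
    · linarith

end

end Pool.Agent.Work.MP_80156a_co
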