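import Pool.Agent.Work.MP_80156a_co.Helly
import Pool.Agent.Work.MP_80156a_co.Light
import Pool.Agent.Work.MP_80156a_co.Comb

/-!
# MP_80156a_co: the theorem for normalized bodies
-/

set_option autoImplicit false

namespace Pool.Agent.Work.MP_80156a_co

open scoped Topology Classical

section

variable {ι : Type*} [Fintype ι] {K : Set (ι → ℝ)} {Y : Finset ι}

/-- coordinates of a functional -/
noncomputable def co (f : (ι → ℝ) →ₗ[ℝ] ℝ) (i : ι) : ℝ := f (Pi.single i 1)

theorem rep (f : (ι → ℝ) →ₗ[ℝ] ℝ) (x : ι → ℝ) : f x = ∑ i, co f i * x i := by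
  conv_lhs => rw [← Finset.univ_sum_single x]
  rw [map_sum]
  refine Finset.sum_congr rfl fun i _ => ?_
  have : (Pi.single i (x i) : ι → ℝ) = x i • Pi.single i 1 := by
    rw [← Pi.single_smul, smul_eq_mul, mul_one]
  rw [this, map_smul, smul_eq_mul, mul_comm, co]

/-- a corner of the unit cube -/
noncomputable def corner (s : Finset ι) : ι → ℝ := fun i => if i ∈ s then 1 else 0

theorem mem_of_half (hK : Norml K Y) {b y : ι → ℝ} {κ : ℝ} (hb : b ∈ K)
    (hbκ : ∀ l, l ∉ Y → κ ≤ b l) (hy : ∀ j ∈ Y, 0 ≤ 2 * y j - b j ∧ 2 * y j - b j ≤ 1)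
    (hy' : ∀ l, l ∉ Y → 0 ≤ y l ∧ y l ≤ κ / 2) : y ∈ K := by
  have h1 : (fun i => if i ∈ Y then 2 * y i - b i else 0) ∈ K :=
    hK.face _ (fun j hj => by simp only [hj, if_true]; exact hy j hj) (fun i hi => by simp [hi])
  have h2 := hK.conv hb h1 (a := 1 / 2) (b := 1 / 2) (by norm_num) (by norm_num) (by norm_num)
  refine hK.down _ h2 y (fun j hj => ?_) (fun l hl => ⟨(hy' l hl).1, ?_⟩)
  · simp only [Pi.add_apply, Pi.smul_apply, smul_eq_mul, hj, if_true]; ring
  · simp only [Pi.add_apply, Pi.smul_apply, smul_eq_mul, hl, if_false, mul_zero, add_zero]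
    have := hbκ l hl
    have := (hy' l hl).2
    linarith

/-- small multiples -/
theorem exists_small (ζ : ι → ℝ) {κ : ℝ} (hκ : 0 < κ) :
    ∃ τ : ℝ, 0 < τ ∧ ∀ t, 0 < t → t ≤ τ → ∀ i, |t * ζ i| ≤ κ := by
  have hs : 0 < ∑ i, |ζ i| + 1 := by
    have := Finset.sum_nonneg (s := Finset.univ) fun i (_ : i ∈ Finset.univ) => abs_nonneg (ζ i)
    linarith
  refine ⟨κ / (∑ i, |ζ i| + 1), by positivity, fun t ht ht' i => ?_⟩
  rw [abs_mul, abs_of_pos ht]
  have h1 : |ζ i| ≤ ∑ i, |ζ i| + 1 := by
    have := Finset.single_le_sum (f := fun i => |ζ i|) (fun i _ => abs_nonneg (ζ i))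
      (Finset.mem_univ i)
    linarith
  rw [le_div_iff₀ hs] at ht'
  nlinarith [abs_nonneg (ζ i)]

theorem reg_X (hK : Norml K Y) {m : ι → ℝ} {κ : ℝ} (hm : ∀ j ∈ Y, 0 < m j ∧ m j < 1) (hκ : 0 < κ)
    (hmκ : (fun i => if i ∈ Y then m i else κ) ∈ K) {i : ι} (hi : i ∉ Y) :
    ∃ w, Reg K w (-LinearMap.proj (R := ℝ) (φ := fun _ : ι => ℝ) i) := by
  set b : ι → ℝ := fun i => if i ∈ Y then m i else κ with hb
  set w : ι → ℝ := fun l => if l ∈ Y then m l else if l = i then 0 else κ / 4 with hw
  have hbY : ∀ j ∈ Y, b j = m j := fun j hj => by simp [hb, hj]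
  have hbX : ∀ l, l ∉ Y → κ ≤ b l := fun l hl => by simp [hb, hl]
  -- margins
  obtain ⟨μ, hμ0, hμ⟩ : ∃ μ : ℝ, 0 < μ ∧ ∀ j ∈ Y, 2 * μ ≤ m j ∧ m j + 2 * μ ≤ 1 := by
    rcases Y.eq_empty_or_nonempty with hY | hY
    · exact ⟨1, one_pos, fun j hj => by rw [hY] at hj; exact absurd hj (Finset.notMem_empty j)⟩
    · obtain ⟨j₀, hj₀, hmin⟩ := Finset.exists_min_image Y (fun j => min (m j) (1 - m j)) hY
      have h0 : 0 < min (m j₀) (1 - m j₀) := lt_min (hm j₀ hj₀).1 (by linarith [(hm j₀ hj₀).2])
      refine ⟨min (m j₀) (1 - m j₀) / 2, by positivity, fun j hj => ?_⟩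
      have h1 := hmin j hj
      have h2 := min_le_left (m j) (1 - m j)
      have h3 := min_le_right (m j) (1 - m j)
      constructor <;> linarith
  refine ⟨w, ?_, fun z hz => ?_, fun ζ hζ => ?_⟩
  · refine mem_of_half hK hmκ hbX (fun j hj => ?_) (fun l hl => ?_)
    · have h1 : w j = m j := by simp [hw, hj]
      rw [h1, hbY j hj]
      constructor <;> linarith [(hm j hj).1, (hm j hj).2]
    · simp only [hw, hl, if_false]
      split_ifs
      · exact ⟨le_rfl, by positivity⟩
      · constructor <;> linarith
  · have h1 := hK.nonneg z hz i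
    have h2 : w i = 0 := by simp [hw, hi]
    simp only [LinearMap.neg_apply, LinearMap.proj_apply, h2]
    linarith
  · simp only [LinearMap.neg_apply, LinearMap.proj_apply] at hζ
    obtain ⟨τ, hτ, h1⟩ := exists_small ζ (lt_min hμ0 (show 0 < κ / 4 by positivity))
    refine ⟨τ, hτ, fun t ht ht' => ?_⟩
    have h2 := h1 t ht ht'
    refine mem_of_half hK hmκ hbX (fun j hj => ?_) (fun l hl => ?_)
    · have h3 := abs_le.1 ((h2 j).trans (min_le_left _ _))
      have h4 : w j = m j := by simp [hw, hj]
      simp only [Pi.add_apply, Pi.smul_apply, smul_eq_mul]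
      rw [h4, hbY j hj]
      constructor <;> linarith [(hμ j hj).1, (hμ j hj).2, h3.1, h3.2]
    · have h3 := abs_le.1 ((h2 l).trans (min_le_right _ _))
      simp only [Pi.add_apply, Pi.smul_apply, smul_eq_mul]
      by_cases hli : l = i
      · subst hli
        have h4 : w l = 0 := by simp [hw, hl]
        rw [h4]
        have h5 : 0 < t * ζ l := mul_pos ht (by linarith)
        constructor <;> linarith [h3.1, h3.2]
      · have h4 : w l = κ / 4 := by simp [hw, hl, hli]
        rw [h4]
        constructor <;> linarith [h3.1, h3.2]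

theorem reg_Y (hK : Norml K Y) {b : ι → ℝ} {κ : ℝ} (hb : b ∈ K) (hκ : 0 < κ)
    (hbκ : ∀ l, l ∉ Y → κ ≤ b l) {j : ι} (hj : j ∈ Y) {a σ : ℝ}
    (ha : (a = 0 ∧ σ = -1) ∨ (a = 1 ∧ σ = 1)) (hbj : b j = a)
    (hbY : ∀ l ∈ Y, l ≠ j → 1 / 4 ≤ b l ∧ b l ≤ 3 / 4) :
    ∃ w, Reg K w (σ • LinearMap.proj (R := ℝ) (φ := fun _ : ι => ℝ) j) := by
  set w : ι → ℝ := fun l => if l ∈ Y then b l else κ / 4 with hw
  have hwj : w j = a := by simp [hw, hj, hbj]
  refine ⟨w, ?_, fun z hz => ?_, fun ζ hζ => ?_⟩
  · refine mem_of_half hK hb hbκ (fun l hl => ?_) (fun l hl => ?_)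
    · have h1 : w l = b l := by simp [hw, hl]
      rw [h1]
      have h2 := hK.nonneg b hb l
      have h3 := hK.le_one b hb l
      constructor <;> linarith
    · simp only [hw, hl, if_false]
      constructor <;> linarith
  · simp only [LinearMap.smul_apply, LinearMap.proj_apply, smul_eq_mul, hwj]
    have h2 := hK.nonneg z hz j
    have h3 := hK.le_one z hz j
    rcases ha with ⟨rfl, rfl⟩ | ⟨rfl, rfl⟩ <;> linarith
  · simp only [LinearMap.smul_apply, LinearMap.proj_apply, smul_eq_mul] at hζ
    obtain ⟨τ, hτ, h1⟩ := exists_small ζ (lt_min (show (0 : ℝ) < 1 / 8 by norm_num)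
      (show 0 < κ / 4 by positivity))
    refine ⟨τ, hτ, fun t ht ht' => ?_⟩
    have h2 := h1 t ht ht'
    refine mem_of_half hK hb hbκ (fun l hl => ?_) (fun l hl => ?_)
    · have h3 := abs_le.1 ((h2 l).trans (min_le_left _ _))
      have h4 : w l = b l := by simp [hw, hl]
      simp only [Pi.add_apply, Pi.smul_apply, smul_eq_mul]
      rw [h4]
      by_cases hlj : l = j
      · subst hlj
        rw [hbj]
        rcases ha with ⟨rfl, rfl⟩ | ⟨rfl, rfl⟩
        · have h5 : 0 < t * ζ l := mul_pos ht (by linarith)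
          constructor <;> linarith [h3.1, h3.2]
        · have h5 : 0 < t * (-ζ l) := mul_pos ht (by linarith)
          constructor <;> linarith [h3.1, h3.2]
      · have h5 := hbY l hl hlj
        constructor <;> linarith [h3.1, h3.2, h5.1, h5.2]
    · have h3 := abs_le.1 ((h2 l).trans (min_le_right _ _))
      simp only [Pi.add_apply, Pi.smul_apply, smul_eq_mul]
      have h4 : w l = κ / 4 := by simp [hw, hl]
      rw [h4]
      constructor <;> linarith [h3.1, h3.2]

/-- average of finitely many points -/
theorem exists_avg (hK : Norml K Y) (hX : (Yᶜ : Finset ι).Nonempty) (z : ι → ι → ℝ)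
    (hz : ∀ l, l ∉ Y → z l ∈ K) (hpos : ∀ l, l ∉ Y → 0 < z l l) :
    ∃ (b : ι → ℝ) (κ : ℝ), b ∈ K ∧ 0 < κ ∧ (∀ l, l ∉ Y → κ ≤ b l) ∧
      ∀ (j : ι) (a : ℝ), (∀ l, l ∉ Y → z l j = a) → b j = a := by
  set n : ℝ := ((Yᶜ : Finset ι).card : ℝ) with hn
  have hn0 : 0 < n := by rw [hn]; exact_mod_cast Finset.card_pos.2 hX
  set b : ι → ℝ := ∑ l ∈ Yᶜ, n⁻¹ • z l with hb
  have hbK : b ∈ K := by
    refine hK.conv.sum_mem (fun l _ => by positivity) ?_ fun l hl => hz l (Finset.mem_compl.1 hl)
    rw [Finset.sum_const, nsmul_eq_mul, ← hn, mul_inv_cancel₀ hn0.ne']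
  obtain ⟨l₀, hl₀, hmin⟩ := Finset.exists_min_image Yᶜ (fun l => z l l) hX
  have hbi : ∀ i, b i = ∑ l ∈ Yᶜ, n⁻¹ * z l i := fun i => by
    rw [hb, Finset.sum_apply]; rfl
  refine ⟨b, n⁻¹ * z l₀ l₀, hbK, mul_pos (by positivity) (hpos l₀ (Finset.mem_compl.1 hl₀)),
    fun l hl => ?_, fun j a hj => ?_⟩
  · rw [hbi]
    have h1 : n⁻¹ * z l l ≤ ∑ l' ∈ Yᶜ, n⁻¹ * z l' l :=
      Finset.single_le_sum (f := fun l' => n⁻¹ * z l' l) (fun l' hl' => mul_nonneg (by positivity)
        (hK.nonneg _ (hz l' (Finset.mem_compl.1 hl')) l)) (Finset.mem_compl.2 hl)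
    refine le_trans (mul_le_mul_of_nonneg_left (hmin l (Finset.mem_compl.2 hl)) (by positivity)) h1
  · rw [hbi, Finset.sum_congr rfl fun l hl => by rw [hj l (Finset.mem_compl.1 hl)],
      Finset.sum_const, nsmul_eq_mul, ← hn, ← mul_assoc, mul_inv_cancel₀ hn0.ne', one_mul]

theorem exists_m (hK : Norml K Y) {i : ι} (hi : i ∉ Y) {θ : ℝ} (hθ0 : 0 < θ) (hθ1 : θ < 1) :
    ∃ (m : ι → ℝ) (κ : ℝ), (∀ j ∈ Y, 0 < m j ∧ m j < 1) ∧ 0 < κ ∧
      (fun i => if i ∈ Y then m i else κ) ∈ K ∧
      (fun l => if l ∈ Y then m l else if l = i then 1 - θ else 0) ∈ K := by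
  have hX : (Yᶜ : Finset ι).Nonempty := ⟨i, Finset.mem_compl.2 hi⟩
  have htop : ∀ l, ∃ z : ι → ℝ, l ∉ Y → (z ∈ K ∧ z l = 1) := fun l => by
    by_cases hl : l ∉ Y
    · obtain ⟨z, h1, h2⟩ := hK.top l hl
      exact ⟨z, fun _ => ⟨h1, h2⟩⟩
    · exact ⟨0, fun h => absurd h hl⟩
  choose z hz using htop
  obtain ⟨b, κ, hb, hκ, hbκ, -⟩ := exists_avg hK hX z (fun l hl => (hz l hl).1)
    (fun l hl => by rw [(hz l hl).2]; exact one_pos)
  have hc : (fun l => if l ∈ Y then (1 / 2 : ℝ) else 0) ∈ K :=
    hK.face _ (fun j hj => by simp only [hj, if_true]; norm_num) (fun l hl => by simp [hl])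
  have h1 := hK.conv hb hc (a := 1 / 2) (b := 1 / 2) (by norm_num) (by norm_num) (by norm_num)
  have h2 := hK.conv (hz i hi).1 h1 (a := 1 - θ) (b := θ) (by linarith) hθ0.le (by ring)
  set p := (1 - θ) • z i + θ • ((1 / 2 : ℝ) • b + (1 / 2 : ℝ) • fun l =>
    if l ∈ Y then (1 / 2 : ℝ) else 0) with hp
  have hpi : ∀ l, p l = (1 - θ) * z i l + θ * (1 / 2 * b l + 1 / 2 *
      if l ∈ Y then (1 / 2 : ℝ) else 0) := fun l => rfl
  refine ⟨p, θ * κ / 2, fun j hj => ?_, by positivity, hK.down p h2 _ (fun j hj => by simp [hj])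
    (fun l hl => ?_), hK.down p h2 _ (fun j hj => by simp [hj]) (fun l hl => ?_)⟩
  · rw [hpi, if_pos hj]
    have h3 := hK.nonneg _ (hz i hi).1 j
    have h4 := hK.le_one _ (hz i hi).1 j
    have h5 := hK.nonneg _ hb j
    have h6 := hK.le_one _ hb j
    constructor
    · have : 0 ≤ (1 - θ) * z i j := mul_nonneg (by linarith) h3
      have : 0 ≤ θ * b j := mul_nonneg hθ0.le h5
      nlinarith
    · have : (1 - θ) * z i j ≤ 1 - θ := by nlinarith
      have : θ * b j ≤ θ := by nlinarith
      nlinarith
  · simp only [hl, if_false]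
    refine ⟨by positivity, ?_⟩
    rw [hpi, if_neg hl]
    have h3 : 0 ≤ (1 - θ) * z i l := mul_nonneg (by linarith) (hK.nonneg _ (hz i hi).1 l)
    have h4 : θ * κ ≤ θ * b l := mul_le_mul_of_nonneg_left (hbκ l hl) hθ0.le
    nlinarith
  · simp only [hl, if_false]
    have h5 : 0 ≤ θ * b l := mul_nonneg hθ0.le (hK.nonneg _ hb l)
    split_ifs with hli
    · refine ⟨by linarith, ?_⟩
      rw [hpi, if_neg hl, hli, (hz i hi).2]
      rw [hli] at h5
      nlinarith
    · refine ⟨le_rfl, ?_⟩
      rw [hpi, if_neg hl]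
      have h3 : 0 ≤ (1 - θ) * z i l := mul_nonneg (by linarith) (hK.nonneg _ (hz i hi).1 l)
      nlinarith

/-- the coefficients of violated regular normals are nonnegative outside `Y` -/
theorem co_nonneg (hK : Norml K Y) {w : ι → ℝ} {f : (ι → ℝ) →ₗ[ℝ] ℝ} (hr : Reg K w f)
    {z : ι → ℝ} (hz : ∀ i, 0 ≤ z i) (hv : f w < f z) {i : ι} (hi : i ∉ Y) : 0 ≤ co f i := by
  by_contra hneg
  push Not at hneg
  have hw0 := hK.nonneg w hr.1 i
  -- `w i = 0`
  have h1 : w i = 0 := by
    have h2 := hr.2.1 (w - w i • Pi.single i 1) (hK.down w hr.1 _ (fun j hj => by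
      have : j ≠ i := fun h => hi (h ▸ hj)
      simp [this]) (fun l hl => by
      by_cases hli : l = i
      · subst hli; simpa using hw0
      · simpa [hli] using hK.nonneg w hr.1 l))
    rw [map_sub, map_smul, smul_eq_mul] at h2
    change f w - w i * co f i ≤ f w at h2
    by_contra hne
    have : 0 < w i := lt_of_le_of_ne hw0 (Ne.symm hne)
    nlinarith
  -- move out of `K`
  have h2 : 0 < f z - f w := by linarith
  set e : ℝ := (f z - f w) / (2 * (-co f i)) with he
  have he0 : 0 < e := div_pos h2 (by linarith)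
  have h3 : f (w - z - e • Pi.single i 1) < 0 := by
    rw [map_sub, map_sub, map_smul, smul_eq_mul]
    change f w - f z - e * co f i < 0
    have hne : -co f i ≠ 0 := by linarith
    have h4 : e * (-co f i) = (f z - f w) / 2 := by
      rw [he, div_mul_eq_mul_div, mul_div_mul_right _ _ hne]
    linarith
  obtain ⟨τ, hτ, h4⟩ := hr.2.2 _ h3
  have h5 := hK.nonneg _ (h4 τ hτ le_rfl) i
  simp only [Pi.add_apply, Pi.smul_apply, Pi.sub_apply, smul_eq_mul, h1, Pi.single_eq_same,
    mul_one] at h5
  have h6 : 0 < τ * (z i + e) := mul_pos hτ (by linarith [hz i])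
  nlinarith

theorem card_support (hK : Norml K Y) {h : ℕ} (hHP : HP K (h + 1))
    (hX : ∀ i, i ∉ Y → ∃ w, Reg K w (-LinearMap.proj (R := ℝ) (φ := fun _ : ι => ℝ) i))
    (hY : ∀ j ∈ Y, ∀ σ : ℝ, σ = -1 ∨ σ = 1 →
      ∃ w, Reg K w (σ • LinearMap.proj (R := ℝ) (φ := fun _ : ι => ℝ) j))
    {w : ι → ℝ} {f : (ι → ℝ) →ₗ[ℝ] ℝ} (hr : Reg K w f)
    {z : ι → ℝ} (hz : ∀ i, 0 ≤ z i) (hv : f w < f z) :
    (Finset.univ.filter fun i => co f i ≠ 0).card ≤ h := by
  set A := Finset.univ.filter fun i => co f i ≠ 0 with hA
  set σ : ι → ℝ := fun i => if 0 < co f i then -1 else 1 with hσ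
  have hreg : ∀ i, ∃ w, i ∈ A → Reg K w (σ i • LinearMap.proj (R := ℝ) (φ := fun _ : ι => ℝ) i) := by
    intro i
    by_cases hiA : i ∈ A
    · by_cases hi : i ∈ Y
      · obtain ⟨w, hw⟩ := hY i hi (σ i) (by simp only [hσ]; split_ifs <;> simp)
        exact ⟨w, fun _ => hw⟩
      · obtain ⟨w, hw⟩ := hX i hi
        refine ⟨w, fun _ => ?_⟩
        have h1 : 0 < co f i := lt_of_le_of_ne (co_nonneg hK hr hz hv hi)
          (Ne.symm (Finset.mem_filter.1 hiA).2)
        have h2 : σ i = -1 := by simp [hσ, h1]
        have h3 : σ i • LinearMap.proj (R := ℝ) (φ := fun _ : ι => ℝ) i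
            = -LinearMap.proj (R := ℝ) (φ := fun _ : ι => ℝ) i := by
          refine LinearMap.ext fun x => ?_
          rw [h2]
          simp
        rw [h3]
        exact hw
    · exact ⟨0, fun h => absurd h hiA⟩
  choose w' hw' using hreg
  have hAne : A.Nonempty := by
    by_contra hne
    rw [Finset.not_nonempty_iff_eq_empty] at hne
    have h1 : ∀ x, f x = 0 := fun x => by
      rw [rep]
      refine Finset.sum_eq_zero fun i _ => ?_
      have : i ∉ A := by rw [hne]; exact Finset.notMem_empty i
      have h2 : co f i = 0 := by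
        by_contra h3; exact this (Finset.mem_filter.2 ⟨Finset.mem_univ i, h3⟩)
      rw [h2, zero_mul]
    rw [h1, h1] at hv
    exact lt_irrefl _ hv
  obtain ⟨i₀, hi₀⟩ := hAne
  have hσ2 : ∀ i ∈ A, co f i * σ i = -|co f i| := by
    intro i hi
    simp only [hσ]
    split_ifs with h1
    · rw [abs_of_pos h1]; ring
    · rw [abs_of_nonpos (not_lt.1 h1)]; ring
  have hσσ : ∀ i, σ i * σ i = 1 := fun i => by simp only [hσ]; split_ifs <;> norm_num
  have habs : ∀ i ∈ A, 0 < |co f i| := fun i hi => abs_pos.2 (Finset.mem_filter.1 hi).2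
  have hsumA : ∀ x : ι → ℝ, ∑ i, co f i * x i = ∑ i ∈ A, co f i * x i := fun x => by
    refine (Finset.sum_subset (Finset.subset_univ A) fun i _ hi => ?_).symm
    have h2 : co f i = 0 := by
      by_contra h3; exact hi (Finset.mem_filter.2 ⟨Finset.mem_univ i, h3⟩)
    rw [h2, zero_mul]
  set M : ℝ := ∑ i ∈ A, |co f i| + 1 with hM
  have hM0 : 0 < M := by
    have := Finset.sum_nonneg (s := A) fun i (_ : i ∈ A) => abs_nonneg (co f i)
    linarith
  -- the circuit
  have key := circuit (α := Option {i // i ∈ A}) (K := K) hHP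
    (fun o => o.elim w (fun i => w' i.1))
    (fun o => o.elim f (fun i => σ i.1 • LinearMap.proj (R := ℝ) (φ := fun _ : ι => ℝ) i.1))
    (fun o => by
      cases o with
      | none => exact hr
      | some i => exact hw' i.1 i.2)
    (fun o => o.elim 1 (fun i => |co f i.1|))
    (fun o => by
      cases o with
      | none => exact one_pos
      | some i => exact habs i.1 i.2)
    (fun x => by
      rw [Fintype.sum_option]
      simp only [Option.elim_none, Option.elim_some, one_mul, LinearMap.smul_apply,
        LinearMap.proj_apply, smul_eq_mul]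
      rw [rep f x, hsumA x, ← Finset.sum_coe_sort A (fun i => co f i * x i),
        ← Finset.sum_add_distrib]
      refine Finset.sum_eq_zero fun i _ => ?_
      have h1 := hσ2 i.1 i.2
      have h2 := hσσ i.1
      have h3 : |co f i.1| * (σ i.1 * x i.1) = -(co f i.1 * σ i.1 * σ i.1) * x i.1 := by
        rw [h1]; ring
      rw [h3, mul_assoc, h2]; ring)
    (fun o => o.elim (fun i => -σ i) (fun i l => if l = i.1 then σ l * (M / |co f l|) else -σ l))
    (fun a b hab => by
      cases a with
      | none =>
        cases b with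
        | none => exact absurd rfl hab
        | some j =>
          simp only [Option.elim_none, Option.elim_some, LinearMap.smul_apply,
            LinearMap.proj_apply, smul_eq_mul]
          have := hσσ j.1
          linarith
      | some i =>
        cases b with
        | none =>
          simp only [Option.elim_none, Option.elim_some]
          rw [rep, hsumA, ← Finset.add_sum_erase A _ i.2, if_pos rfl]
          have h1 := hσ2 i.1 i.2
          have h2 := habs i.1 i.2
          have h3 : co f i.1 * (σ i.1 * (M / |co f i.1|)) = -M := by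
            rw [← mul_assoc, h1]; field_simp
          have h4 : ∑ x ∈ A.erase i.1, co f x * (if x = i.1 then σ x * (M / |co f x|) else -σ x)
              = ∑ x ∈ A.erase i.1, |co f x| := by
            refine Finset.sum_congr rfl fun l hl => ?_
            rw [if_neg (Finset.ne_of_mem_erase hl)]
            have := hσ2 l (Finset.mem_of_mem_erase hl)
            linarith
          have h5 : ∑ x ∈ A.erase i.1, |co f x| ≤ ∑ x ∈ A, |co f x| :=
            Finset.sum_le_sum_of_subset_of_nonneg (Finset.erase_subset _ _)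
              fun _ _ _ => abs_nonneg _
          rw [h3, h4]
          linarith
        | some j =>
          have hne : j.1 ≠ i.1 := fun h => hab (by rw [Subtype.ext h])
          simp only [Option.elim_some, LinearMap.smul_apply,
            LinearMap.proj_apply, smul_eq_mul, hne, if_false]
          have := hσσ j.1
          linarith)
    none (some ⟨i₀, hi₀⟩) (by simp)
  rw [Fintype.card_option, Fintype.card_coe] at key
  omega

omit [Fintype ι] in
theorem corner_nonneg (s : Finset ι) (i : ι) : 0 ≤ corner s i := by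
  simp only [corner]; split_ifs <;> norm_num

/-- `f` is larger at a suitable corner -/
theorem le_corner (f : (ι → ℝ) →ₗ[ℝ] ℝ) {z : ι → ℝ} (h0 : ∀ i, 0 ≤ z i) (h1 : ∀ i, z i ≤ 1)
    {Z : Finset ι} (hZ : ∀ i, i ∉ Z → z i = 0) :
    f z ≤ f (corner (Z.filter fun i => 0 < co f i)) := by
  rw [rep, rep]
  refine Finset.sum_le_sum fun i _ => ?_
  by_cases hiZ : i ∈ Z
  · by_cases hf : 0 < co f i
    · have h2 : corner (Z.filter fun i => 0 < co f i) i = 1 := by
        simp [corner, hiZ, hf]
      rw [h2]
      nlinarith [h1 i]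
    · have h2 : corner (Z.filter fun i => 0 < co f i) i = 0 := by
        simp [corner, hf]
      rw [h2]
      push Not at hf
      nlinarith [h0 i]
  · have h2 : corner (Z.filter fun i => 0 < co f i) i = 0 := by
      simp [corner, hiZ]
    rw [h2, hZ i hiZ]

/-- two corners with the same value of `f` -/
theorem corner_congr (f : (ι → ℝ) →ₗ[ℝ] ℝ) {s s' : Finset ι}
    (h : ∀ i, co f i ≠ 0 → (i ∈ s ↔ i ∈ s')) : f (corner s) = f (corner s') := by
  rw [rep, rep]
  refine Finset.sum_congr rfl fun i _ => ?_
  by_cases hf : co f i = 0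
  · rw [hf, zero_mul, zero_mul]
  · have := h i hf
    simp only [corner, this]

/-- the final count -/
theorem final_count {V S : Finset ι} (hVS : Disjoint V S) {C' : Finset (Finset ι)}
    (hC' : ∀ c ∈ C', c ⊆ V) {h n : ℕ}
    (hcount : 2 ^ (V.card + S.card) ≤ C'.card * 2 ^ h)
    (hn : n ≤ (Finset.univ.filter fun s : Finset ι => ¬ (s ∩ V ∈ C' ∧ S ⊆ s)).card) :
    n ≤ 2 ^ Fintype.card ι - 2 ^ (Fintype.card ι - h) := by
  have h1 := card_ext V S hVS C' hC'
  have h2 := Finset.card_filter_add_card_filter_not (s := (Finset.univ : Finset (Finset ι)))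
    (fun s : Finset ι => s ∩ V ∈ C' ∧ S ⊆ s)
  rw [Finset.card_univ, Fintype.card_finset] at h2
  set R := (Finset.univ.filter fun s : Finset ι => s ∩ V ∈ C' ∧ S ⊆ s).card with hR
  set d := Fintype.card ι with hd
  have h3 : 2 ^ d ≤ R * 2 ^ h := by
    have h4 : 2 ^ (V.card + S.card) * 2 ^ d ≤ (R * 2 ^ h) * 2 ^ (V.card + S.card) := by
      calc 2 ^ (V.card + S.card) * 2 ^ d ≤ C'.card * 2 ^ h * 2 ^ d := Nat.mul_le_mul_right _ hcount
        _ = (C'.card * 2 ^ d) * 2 ^ h := by ring
        _ = (R * 2 ^ (V.card + S.card)) * 2 ^ h := by rw [h1]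
        _ = (R * 2 ^ h) * 2 ^ (V.card + S.card) := by ring
    rw [mul_comm] at h4
    exact Nat.le_of_mul_le_mul_right h4 (by positivity)
  have h5 : 2 ^ (d - h) ≤ R := by
    rcases le_total h d with h6 | h6
    · have h7 : 2 ^ (d - h) * 2 ^ h ≤ R * 2 ^ h := by
        rw [← pow_add, Nat.sub_add_cancel h6]; exact h3
      exact Nat.le_of_mul_le_mul_right h7 (by positivity)
    · rw [Nat.sub_eq_zero_of_le h6, pow_zero]
      by_contra hneg
      have : R = 0 := by omega
      rw [this, zero_mul] at h3
      have : 0 < 2 ^ d := by positivity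
      omega
  omega

/-- **The theorem for normalized bodies.** -/
theorem norml_main (hK : Norml K Y) (hi : (interior K).Nonempty) {h : ℕ} (h3 : 3 ≤ h)
    (hHP : HP K (h + 1)) {z₀ : ι → ℝ} (hz0 : ∀ i, 0 ≤ z₀ i) (hz1 : ∀ i, z₀ i ≤ 1) (hz : z₀ ∉ K) :
    ∃ L : Finset (ι → ℝ), L.card ≤ 2 ^ Fintype.card ι - 2 ^ (Fintype.card ι - h) ∧
      ∀ z ∈ K, ∃ v ∈ L, Lit K z v := by
  have hcl : IsClosed K := hK.comp.isClosed
  -- sets `S` outside `Y` such that some corner is missing
  set P : Finset ι → Prop := fun S => Disjoint Y S ∧ ∃ c ⊆ Y, corner (c ∪ S) ∉ K with hP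
  have hPex : ∃ S, P S := by
    obtain ⟨w, f, hr, hv⟩ := exists_reg hK.conv hcl hi hz
    have h1 := le_corner f hz0 hz1 (Z := Finset.univ) (fun i hi' => absurd (Finset.mem_univ i) hi')
    set s := Finset.univ.filter fun i => 0 < co f i with hs
    refine ⟨s \ Y, Finset.disjoint_sdiff, s ∩ Y, Finset.inter_subset_right, fun hmem => ?_⟩
    have h2 : s ∩ Y ∪ s \ Y = s := by
      rw [Finset.union_comm]; exact Finset.sdiff_union_inter s Y
    rw [h2] at hmem
    have := hr.2.1 _ hmem
    linarith
  obtain ⟨S, hPS, hSmin⟩ : ∃ S, P S ∧ ∀ S', P S' → S.card ≤ S'.card := by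
    obtain ⟨S, h1, h2⟩ := Finset.exists_min_image (Finset.univ.filter P) Finset.card
      (by obtain ⟨S, hS⟩ := hPex; exact ⟨S, Finset.mem_filter.2 ⟨Finset.mem_univ _, hS⟩⟩)
    exact ⟨S, (Finset.mem_filter.1 h1).2, fun S' hS' =>
      h2 S' (Finset.mem_filter.2 ⟨Finset.mem_univ _, hS'⟩)⟩
  obtain ⟨hYS, c₀, hc₀Y, hc₀⟩ := hPS
  have hSY : ∀ i ∈ S, i ∉ Y := fun i hiS hiY => Finset.disjoint_left.1 hYS hiY hiS
  have hSne : S.Nonempty := by
    by_contra hne
    rw [Finset.not_nonempty_iff_eq_empty] at hne
    rw [hne, Finset.union_empty] at hc₀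
    refine hc₀ (hK.face _ (fun j _ => ?_) fun i hi' => ?_)
    · simp only [corner]; split_ifs <;> norm_num
    · simp only [corner]; rw [if_neg fun h => hi' (hc₀Y h)]
  obtain ⟨i₀, hi₀⟩ := hSne
  have hi₀Y := hSY i₀ hi₀
  have hX : (Yᶜ : Finset ι).Nonempty := ⟨i₀, Finset.mem_compl.2 hi₀Y⟩
  by_cases hdeg : ∃ j ∈ Y, ∃ a : ℝ, (a = 0 ∨ a = 1) ∧ ∃ l, l ∉ Y ∧ ∀ z ∈ K, z j = a → z l = 0
  · -- a degenerate facet
    obtain ⟨j, hj, a, ha, l, hl, hz'⟩ := hdeg
    set W : Finset (Finset ι) := Y.powerset.filter fun c => c ∩ {j} = if a = 1 then {j} else ∅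
      with hW
    have hWcard : W.card * 2 = 2 ^ Y.card := by
      have := card_cube Y {j} (if a = 1 then {j} else ∅) (Finset.singleton_subset_iff.2 hj)
        (by split_ifs <;> simp)
      rwa [Finset.card_singleton, pow_one] at this
    have hpar : ∃ r : ℕ, W.card ≤ (W.filter fun B => B.card % 2 = r).card * 2 := by
      have h4 := Finset.card_filter_add_card_filter_not (s := W) (fun B => B.card % 2 = 0)
      have h5 : (W.filter fun B => ¬ B.card % 2 = 0) = W.filter fun B => B.card % 2 = 1 := by
        ext B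
        simp only [Finset.mem_filter]
        constructor
        · rintro ⟨h5, h6⟩; exact ⟨h5, by omega⟩
        · rintro ⟨h5, h6⟩; exact ⟨h5, by omega⟩
      rw [h5] at h4
      by_contra hcon
      push Not at hcon
      have := hcon 0
      have := hcon 1
      omega
    obtain ⟨r, hr⟩ := hpar
    set C := W.filter fun B => B.card % 2 = r with hC
    have hCY : ∀ c ∈ C, c ⊆ Y := fun c hc =>
      Finset.mem_powerset.1 (Finset.mem_filter.1 (Finset.mem_filter.1 hc).1).1
    obtain ⟨L, hL, hLit⟩ := lighting hK hi (S := {l}) (J := ∅) (C := C)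
      (fun i hi' => by rw [Finset.mem_singleton.1 hi']; exact hl)
      (fun i hi' z y hzK h4 h5 h6 h7 h8 => by
        have : y = z := by
          funext k
          by_cases hkY : k ∈ Y
          · exact h5 k hkY (Finset.notMem_empty k)
          · by_cases hki : k = i
            · rw [hki]; exact h7
            · rw [h8 k hkY hki, h4 k hkY hki]
        rw [this]; exact hzK)
      (fun θ h4 h5 => by
        obtain ⟨m, κ, h6, h7, h8, h9⟩ := exists_m hK hl h4 h5
        exact ⟨m, κ, h6, h7, h8, fun i hi' => by rw [Finset.mem_singleton.1 hi']; exact h9⟩)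
      (fun c hc c' hc' k hk _ h4 h5 hcC => by
        have h6 := (Finset.mem_filter.1 hc).2
        have h7 := (Finset.mem_filter.1 hcC).2
        by_cases hkc : k ∈ c
        · have h8 : c' = c.erase k := by
            ext i
            by_cases hik : i = k
            · subst hik; simp [h5, hkc]
            · rw [h4 i hik, Finset.mem_erase]; simp [hik]
          rw [h8, Finset.card_erase_of_mem hkc] at h7
          have : 0 < c.card := Finset.card_pos.2 ⟨k, hkc⟩
          omega
        · have h8 : c' = insert k c := by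
            ext i
            by_cases hik : i = k
            · subst hik; simp [h5, hkc]
            · rw [h4 i hik, Finset.mem_insert]; simp [hik]
          rw [h8, Finset.card_insert_of_notMem hkc] at h7
          omega)
      (fun c hc p hp h4 h5 => by
        have h6 := h5 l (Finset.mem_singleton_self l)
        have h7 : p l = 0 := by
          refine hz' p hp ?_
          rw [h4 j hj (Finset.notMem_empty j)]
          have h8 := (Finset.mem_filter.1 (Finset.mem_filter.1 hc).1).2
          rcases ha with rfl | rfl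
          · have h9 : j ∉ c := fun h => by
              have : j ∈ c ∩ {j} := by simp [h]
              rw [h8, if_neg (by norm_num)] at this
              exact absurd this (Finset.notMem_empty j)
            rw [if_neg h9]
          · have h9 : j ∈ c := by
              have : j ∈ c ∩ {j} := by rw [h8]; simp
              exact (Finset.mem_inter.1 this).1
            rw [if_pos h9]
        rw [h7] at h6
        linarith)
    refine ⟨L, final_count (V := Y) (S := {l}) (C' := C) (by simpa using hl) hCY ?_ hL, hLit⟩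
    rw [Finset.card_singleton, pow_succ]
    have h4 : 8 ≤ 2 ^ h := by
      calc 8 = 2 ^ 3 := by norm_num
        _ ≤ 2 ^ h := Nat.pow_le_pow_right (by norm_num) h3
    calc 2 ^ Y.card * 2 = W.card * 4 := by rw [← hWcard]; ring
      _ ≤ C.card * 2 * 4 := Nat.mul_le_mul_right _ hr
      _ = C.card * 8 := by ring
      _ ≤ C.card * 2 ^ h := Nat.mul_le_mul_left _ h4
  · -- all facets are regular
    push Not at hdeg
    obtain ⟨m, κ, hm, hκ, hmκ, -⟩ := exists_m hK hi₀Y (θ := 1 / 2) (by norm_num) (by norm_num)
    have hregX : ∀ i, i ∉ Y → ∃ w, Reg K w (-LinearMap.proj (R := ℝ) (φ := fun _ : ι => ℝ) i) :=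
      fun i hi' => reg_X hK hm hκ hmκ hi'
    have hregY : ∀ j ∈ Y, ∀ σ : ℝ, σ = -1 ∨ σ = 1 →
        ∃ w, Reg K w (σ • LinearMap.proj (R := ℝ) (φ := fun _ : ι => ℝ) j) := by
      intro j hj σ hσ
      set a : ℝ := if σ = 1 then 1 else 0 with ha
      have haσ : (a = 0 ∧ σ = -1) ∨ (a = 1 ∧ σ = 1) := by
        rcases hσ with h4 | h4
        · left; refine ⟨?_, h4⟩; rw [ha, if_neg]; rw [h4]; norm_num
        · right; exact ⟨by rw [ha, if_pos h4], h4⟩
      have ha01 : a = 0 ∨ a = 1 := by rcases haσ with h4 | h4; exacts [Or.inl h4.1, Or.inr h4.1]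
      have hex : ∀ l, ∃ z : ι → ℝ, l ∉ Y → (z ∈ K ∧ z j = a ∧ z l ≠ 0) := fun l => by
        by_cases hl : l ∉ Y
        · obtain ⟨z, h4, h5, h6⟩ := hdeg j hj a ha01 l hl
          exact ⟨z, fun _ => ⟨h4, h5, h6⟩⟩
        · exact ⟨0, fun h => absurd h hl⟩
      choose z hz' using hex
      obtain ⟨b, κ', hb, hκ', hbκ, hba⟩ := exists_avg hK hX z (fun l hl => (hz' l hl).1)
        (fun l hl => lt_of_le_of_ne (hK.nonneg _ (hz' l hl).1 l) (Ne.symm (hz' l hl).2.2))
      have hc : (fun l => if l ∈ Y then (if l = j then a else (1 / 2 : ℝ)) else 0) ∈ K :=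
        hK.face _ (fun k hk => by
          simp only [hk, if_true]
          split_ifs
          · rcases ha01 with h4 | h4 <;> rw [h4] <;> norm_num
          · norm_num) (fun l hl => by simp [hl])
      have h1 := hK.conv hb hc (a := 1 / 2) (b := 1 / 2) (by norm_num) (by norm_num) (by norm_num)
      set p := (1 / 2 : ℝ) • b + (1 / 2 : ℝ) • fun l =>
        if l ∈ Y then (if l = j then a else (1 / 2 : ℝ)) else 0 with hp
      have hpi : ∀ l, p l = 1 / 2 * b l + 1 / 2 *
        (if l ∈ Y then (if l = j then a else (1 / 2 : ℝ)) else 0) := fun l => rfl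
      refine reg_Y hK h1 (κ := κ' / 2) (by positivity) (fun l hl => ?_) hj haσ ?_ fun l hl hlj => ?_
      · rw [hpi, if_neg hl]
        have := hbκ l hl
        linarith
      · rw [hpi, if_pos hj, if_pos rfl, hba j a fun l hl => (hz' l hl).2.1]
        ring
      · rw [hpi, if_pos hl, if_neg hlj]
        have h4 := hK.nonneg b hb l
        have h5 := hK.le_one b hb l
        constructor <;> linarith
    -- consequences for violated regular normals
    have hsupp : ∀ (w : ι → ℝ) (f : (ι → ℝ) →ₗ[ℝ] ℝ), Reg K w f → ∀ s : Finset ι,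
        f w < f (corner s) → (Finset.univ.filter fun i => co f i ≠ 0).card ≤ h :=
      fun w f hr s hv => card_support hK hHP hregX hregY hr (corner_nonneg s) hv
    rcases Nat.lt_or_ge 1 S.card with hS2 | hS1
    · -- `S` has at least two elements
      obtain ⟨w, f, hr, hv⟩ := exists_reg hK.conv hcl hi hc₀
      have hfn : ∀ i, i ∉ Y → 0 ≤ co f i := fun i hi' => co_nonneg hK hr (corner_nonneg _) hv hi'
      -- `S` is contained in the support
      have hSsupp : ∀ i ∈ S, co f i ≠ 0 := by
        have h4 : P (S.filter fun i => co f i ≠ 0) := by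
          refine ⟨hYS.mono_right (Finset.filter_subset _ _), c₀, hc₀Y, fun hmem => ?_⟩
          have h5 := hr.2.1 _ hmem
          have h6 : f (corner (c₀ ∪ S)) = f (corner (c₀ ∪ S.filter fun i => co f i ≠ 0)) :=
            corner_congr f fun i hi' => by
              simp only [Finset.mem_union, Finset.mem_filter, hi', ne_eq, not_false_eq_true,
                and_true]
          rw [← h6] at h5
          linarith
        have h5 := hSmin _ h4
        have h6 := Finset.eq_of_subset_of_card_le (Finset.filter_subset _ _) h5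
        intro i hi'
        rw [← h6] at hi'
        exact (Finset.mem_filter.1 hi').2
      set T := Y.filter fun i => co f i ≠ 0 with hT
      have hTS : Disjoint T S := hYS.mono_left (Finset.filter_subset _ _)
      have hcardTS : T.card + S.card ≤ h := by
        rw [← Finset.card_union_of_disjoint hTS]
        refine le_trans (Finset.card_le_card fun i hi' => ?_) (hsupp w f hr _ hv)
        rcases Finset.mem_union.1 hi' with h4 | h4
        · exact Finset.mem_filter.2 ⟨Finset.mem_univ _, (Finset.mem_filter.1 h4).2⟩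
        · exact Finset.mem_filter.2 ⟨Finset.mem_univ _, hSsupp i h4⟩
      -- single coordinates are full
      have hfull : ∀ i ∈ S, ∀ y : ι → ℝ, (∀ j, 0 ≤ y j) → (∀ j, y j ≤ 1) →
          (∀ l, l ∉ Y → l ≠ i → y l = 0) → y ∈ K := by
        intro i hiS y hy0 hy1 hyl
        by_contra hyK
        obtain ⟨w', f', hr', hv'⟩ := exists_reg hK.conv hcl hi hyK
        have h4 := le_corner f' hy0 hy1 (Z := insert i Y) (fun l hl => by
          rw [Finset.mem_insert, not_or] at hl
          exact hyl l hl.2 hl.1)
        set s := (insert i Y).filter fun i => 0 < co f' i with hs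
        have h5 : corner s ∉ K := fun hmem => by
          have := hr'.2.1 _ hmem
          linarith
        have h6 : P (s \ Y) := by
          refine ⟨Finset.disjoint_sdiff, s ∩ Y, Finset.inter_subset_right, ?_⟩
          have h7 : s ∩ Y ∪ s \ Y = s := by
            rw [Finset.union_comm]; exact Finset.sdiff_union_inter s Y
          rw [h7]; exact h5
        have h7 := hSmin _ h6
        have h8 : (s \ Y).card ≤ 1 := by
          refine le_trans (Finset.card_le_card (t := {i}) fun l hl => ?_)
            (Finset.card_singleton i).le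
          obtain ⟨h8, h9⟩ := Finset.mem_sdiff.1 hl
          rcases Finset.mem_insert.1 (Finset.mem_filter.1 h8).1 with h10 | h10
          · rw [h10]; exact Finset.mem_singleton_self i
          · exact absurd h10 h9
        omega
      set C : Finset (Finset ι) := Y.powerset.filter fun c => c ∩ T = c₀ ∩ T with hC
      obtain ⟨L, hL, hLit⟩ := lighting hK hi (S := S) (J := Y \ T) (C := C) hSY
        (fun i hi' z y hzK _ _ h6 h7 h8 => by
          refine hfull i hi' y (fun j => ?_) (fun j => ?_) h8
          · by_cases hjY : j ∈ Y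
            · exact (h6 j hjY).1
            · by_cases hji : j = i
              · rw [hji, h7]; exact hK.nonneg z hzK i
              · rw [h8 j hjY hji]
          · by_cases hjY : j ∈ Y
            · exact (h6 j hjY).2
            · by_cases hji : j = i
              · rw [hji, h7]; exact hK.le_one z hzK i
              · rw [h8 j hjY hji]; exact zero_le_one)
        (fun θ h4 h5 => by
          obtain ⟨m', κ', h6, h7, h8, -⟩ := exists_m hK hi₀Y h4 h5
          refine ⟨m', κ', h6, h7, h8, fun i hi' => hfull i hi' _ (fun j => ?_) (fun j => ?_)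
            (fun l hl hli => by simp [hl, hli])⟩
          · split_ifs with h9 h10
            · exact (h6 j h9).1.le
            · linarith
            · exact le_rfl
          · split_ifs with h9 h10
            · exact (h6 j h9).2.le
            · linarith
            · exact zero_le_one)
        (fun c hc c' hc' k hk hkJ h4 h5 hcC => by
          have hkT : k ∈ T := by
            by_contra hkT; exact hkJ (Finset.mem_sdiff.2 ⟨hk, hkT⟩)
          have h6 := (Finset.mem_filter.1 hc).2
          have h7 := (Finset.mem_filter.1 hcC).2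
          rw [← h7] at h6
          have h8 := Finset.ext_iff.1 h6 k
          simp only [Finset.mem_inter, hkT, and_true] at h8
          tauto)
        (fun c hc p hp h4 h5 => by
          have h6 := hr.2.1 p hp
          have h7 : f (corner (c₀ ∪ S)) ≤ f p := by
            rw [rep, rep]
            refine Finset.sum_le_sum fun i _ => ?_
            by_cases hiY : i ∈ Y
            · by_cases hiT : i ∈ T
              · have h8 : p i = corner (c₀ ∪ S) i := by
                  rw [h4 i hiY fun h => (Finset.mem_sdiff.1 h).2 hiT]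
                  have h9 := Finset.ext_iff.1 (Finset.mem_filter.1 hc).2 i
                  simp only [Finset.mem_inter, hiT, and_true] at h9
                  have h10 : i ∉ S := fun h => hSY i h hiY
                  simp only [corner, Finset.mem_union, h9, h10, or_false]
                rw [h8]
              · have h8 : co f i = 0 := by
                  by_contra h9; exact hiT (Finset.mem_filter.2 ⟨hiY, h9⟩)
                rw [h8, zero_mul, zero_mul]
            · have h8 := hfn i hiY
              by_cases hiS : i ∈ S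
              · have h9 := h5 i hiS
                have h10 : corner (c₀ ∪ S) i = 1 := by simp [corner, hiS]
                rw [h10]
                nlinarith
              · have h10 : corner (c₀ ∪ S) i = 0 := by
                  have : i ∉ c₀ := fun h => hiY (hc₀Y h)
                  simp [corner, hiS, this]
                rw [h10, mul_zero]
                exact mul_nonneg h8 (hK.nonneg p hp i)
          linarith)
      refine ⟨L, final_count (V := T) (S := S) (C' := {c₀ ∩ T}) hTS
        (fun c hc => by rw [Finset.mem_singleton.1 hc]; exact Finset.inter_subset_right) ?_ ?_, hLit⟩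
      · rw [Finset.card_singleton, one_mul]
        exact Nat.pow_le_pow_right (by norm_num) hcardTS
      · refine hL.trans (Finset.card_le_card fun s hs => ?_)
        rw [Finset.mem_filter] at hs ⊢
        refine ⟨hs.1, fun h4 => hs.2 ⟨?_, h4.2⟩⟩
        refine Finset.mem_filter.2 ⟨Finset.mem_powerset.2 Finset.inter_subset_right, ?_⟩
        rw [← Finset.mem_singleton.1 h4.1, Finset.inter_assoc,
          Finset.inter_eq_right.2 (Finset.filter_subset _ Y)]
    · -- `S` has one element
      have hSi : S = {i₀} := by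
        refine (Finset.eq_of_subset_of_card_le (Finset.singleton_subset_iff.2 hi₀) ?_).symm
        rw [Finset.card_singleton]; exact hS1
      rw [hSi] at hc₀
      -- violated regular normals
      set Q : ((ι → ℝ) →ₗ[ℝ] ℝ) → Prop := fun f => ∃ w, Reg K w f ∧ ∃ c ⊆ Y,
        f w < f (corner (c ∪ {i₀})) with hQ
      set V := Y.filter fun j => ∃ f, Q f ∧ co f j ≠ 0 with hV
      set W : Finset (Finset ι) := V.powerset.filter fun B => corner (B ∪ {i₀}) ∉ K with hW
      -- a violated regular normal gives a subcube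
      have hcube : ∀ f, Q f → ∃ T g : Finset ι, (∀ j ∈ Y, co f j ≠ 0 → j ∈ T) ∧ T ⊆ V ∧ g ⊆ T ∧
          T.card ≤ h - 1 ∧ ∀ B ⊆ V, B ∩ T = g → B ∈ W := by
        intro f hf
        obtain ⟨w, hr, c, hcY, hv⟩ := hf
        have hfi : co f i₀ ≠ 0 := by
          intro h0
          have h4 : f (corner (c ∪ {i₀})) = f (corner c) := corner_congr f fun i hi' => by
            have : i ≠ i₀ := fun h => hi' (h ▸ h0)
            simp [this]
          have h5 : corner c ∈ K := hK.face _ (fun j _ => by
            simp only [corner]; split_ifs <;> norm_num) fun i hi' => by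
              simp only [corner]; rw [if_neg fun h => hi' (hcY h)]
          have := hr.2.1 _ h5
          linarith
        set T := Y.filter fun j => co f j ≠ 0 with hT
        refine ⟨T, c ∩ T, fun j hj hj' => Finset.mem_filter.2 ⟨hj, hj'⟩, fun j hj => ?_,
          Finset.inter_subset_right, ?_, fun B hB hBT => ?_⟩
        · obtain ⟨h4, h5⟩ := Finset.mem_filter.1 hj
          exact Finset.mem_filter.2 ⟨h4, f, ⟨w, hr, c, hcY, hv⟩, h5⟩
        · have h4 := hsupp w f hr _ hv
          have h5 : insert i₀ T ⊆ Finset.univ.filter fun i => co f i ≠ 0 := by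
            intro i hi'
            rcases Finset.mem_insert.1 hi' with h6 | h6
            · rw [h6]; exact Finset.mem_filter.2 ⟨Finset.mem_univ _, hfi⟩
            · exact Finset.mem_filter.2 ⟨Finset.mem_univ _, (Finset.mem_filter.1 h6).2⟩
          have h6 : T.card + 1 ≤ (Finset.univ.filter fun i => co f i ≠ 0).card := by
            rw [← Finset.card_insert_of_notMem (a := i₀) (s := T)
              fun h7 => hi₀Y (Finset.mem_filter.1 h7).1]
            exact Finset.card_le_card h5
          omega
        · refine Finset.mem_filter.2 ⟨Finset.mem_powerset.2 hB, fun hmem => ?_⟩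
          have h4 : f (corner (B ∪ {i₀})) = f (corner (c ∪ {i₀})) := corner_congr f fun i hi' => by
            by_cases hii : i = i₀
            · simp [hii]
            · have h5 : i ∈ B ↔ i ∈ c := by
                by_cases hiY : i ∈ Y
                · have hiT : i ∈ T := Finset.mem_filter.2 ⟨hiY, hi'⟩
                  have h6 := Finset.ext_iff.1 hBT i
                  simpa only [Finset.mem_inter, hiT, and_true] using h6
                · have h6 : i ∉ B := fun h => hiY (Finset.mem_filter.1 (hB h)).1
                  have h7 : i ∉ c := fun h => hiY (hcY h)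
                  simp [h6, h7]
              simp [hii, h5]
          have := hr.2.1 _ hmem
          linarith
      obtain ⟨w₁, f₁, hr₁, hv₁⟩ := exists_reg hK.conv hcl hi hc₀
      have hQ₁ : Q f₁ := ⟨w₁, hr₁, c₀, hc₀Y, hv₁⟩
      obtain ⟨r, hrW⟩ := exists_indep V (h - 1) W
        (by
          obtain ⟨T, g, -, h4, h5, h6, h7⟩ := hcube f₁ hQ₁
          exact ⟨T, g, h4, h5, h6, h7⟩)
        (fun j hj => by
          obtain ⟨h4, f, hf, h5⟩ := Finset.mem_filter.1 hj
          obtain ⟨T, g, h6, h7, h8, h9, h10⟩ := hcube f hf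
          exact ⟨T, g, h6 j h4 h5, h7, h8, h9, h10⟩)
      -- independence of the coordinates outside `V`
      have hJ : ∀ z y : ι → ℝ, z ∈ K → (∀ l, l ∉ Y → l ≠ i₀ → z l = 0) →
          (∀ j ∈ V, y j = z j) → (∀ j ∈ Y, 0 ≤ y j ∧ y j ≤ 1) →
          y i₀ = z i₀ → (∀ l, l ∉ Y → l ≠ i₀ → y l = 0) → y ∈ K := by
        intro z y hzK h4 h5 h6 h7 h8
        by_contra hyK
        obtain ⟨w, f, hr, hv⟩ := exists_reg hK.conv hcl hi hyK
        have hy0 : ∀ j, 0 ≤ y j := fun j => by
          by_cases hjY : j ∈ Y
          · exact (h6 j hjY).1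
          · by_cases hji : j = i₀
            · rw [hji, h7]; exact hK.nonneg z hzK i₀
            · rw [h8 j hjY hji]
        have hy1 : ∀ j, y j ≤ 1 := fun j => by
          by_cases hjY : j ∈ Y
          · exact (h6 j hjY).2
          · by_cases hji : j = i₀
            · rw [hji, h7]; exact hK.le_one z hzK i₀
            · rw [h8 j hjY hji]; exact zero_le_one
        have hfn : ∀ i, i ∉ Y → 0 ≤ co f i := fun i hi' => co_nonneg hK hr hy0 hv hi'
        have h9 : Q f := by
          refine ⟨w, hr, Y.filter fun i => 0 < co f i, Finset.filter_subset _ _,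
            lt_of_lt_of_le hv ?_⟩
          rw [rep, rep]
          refine Finset.sum_le_sum fun i _ => ?_
          by_cases hiY : i ∈ Y
          · have hii : i ≠ i₀ := fun h => hi₀Y (h ▸ hiY)
            by_cases hf : 0 < co f i
            · have h10 : corner ((Y.filter fun i => 0 < co f i) ∪ {i₀}) i = 1 := by
                simp [corner, hiY, hf]
              rw [h10]
              nlinarith [hy1 i]
            · have h10 : corner ((Y.filter fun i => 0 < co f i) ∪ {i₀}) i = 0 := by
                simp [corner, hf, hii]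
              rw [h10]
              push Not at hf
              nlinarith [hy0 i]
          · by_cases hii : i = i₀
            · have h10 : corner ((Y.filter fun i => 0 < co f i) ∪ {i₀}) i = 1 := by
                simp [corner, hii]
              rw [h10]
              have := hfn i hiY
              nlinarith [hy1 i]
            · rw [h8 i hiY hii, mul_zero]
              exact mul_nonneg (hfn i hiY) (corner_nonneg _ i)
        have h10 : f y = f z := by
          rw [rep, rep]
          refine Finset.sum_congr rfl fun i _ => ?_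
          by_cases hiY : i ∈ Y
          · by_cases hf : co f i = 0
            · rw [hf, zero_mul, zero_mul]
            · rw [h5 i (Finset.mem_filter.2 ⟨hiY, f, h9, hf⟩)]
          · by_cases hii : i = i₀
            · rw [hii, h7]
            · rw [h8 i hiY hii, h4 i hiY hii]
        have := hr.2.1 z hzK
        linarith
      set C' := W.filter fun B => B.card % 2 = r with hC'
      set C : Finset (Finset ι) := Y.powerset.filter fun c => c ∩ V ∈ C' with hC
      have hVY : V ⊆ Y := Finset.filter_subset _ _
      obtain ⟨L, hL, hLit⟩ := lighting hK hi (S := {i₀}) (J := Y \ V) (C := C)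
        (fun i hi' => by rw [Finset.mem_singleton.1 hi']; exact hi₀Y)
        (fun i hi' z y hzK h4 h5 h6 h7 h8 => by
          rw [Finset.mem_singleton.1 hi'] at h4 h7 h8
          exact hJ z y hzK h4 (fun j hj => h5 j (hVY hj) fun h =>
            (Finset.mem_sdiff.1 h).2 hj) h6 h7 h8)
        (fun θ h4 h5 => by
          obtain ⟨m, κ, h6, h7, h8, h9⟩ := exists_m hK hi₀Y h4 h5
          exact ⟨m, κ, h6, h7, h8, fun i hi' => by rw [Finset.mem_singleton.1 hi']; exact h9⟩)
        (fun c hc c' hc' k hk hkJ h4 h5 hcC => by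
          have hkV : k ∈ V := by
            by_contra hkV; exact hkJ (Finset.mem_sdiff.2 ⟨hk, hkV⟩)
          have h6 := (Finset.mem_filter.1 (Finset.mem_filter.1 hc).2).2
          have h7 := (Finset.mem_filter.1 (Finset.mem_filter.1 hcC).2).2
          by_cases hkc : k ∈ c
          · have h8 : c' ∩ V = (c ∩ V).erase k := by
              ext i
              by_cases hik : i = k
              · subst hik; simp [h5, hkc]
              · rw [Finset.mem_inter, h4 i hik, Finset.mem_erase, Finset.mem_inter]; simp [hik]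
            have h9 : k ∈ c ∩ V := Finset.mem_inter.2 ⟨hkc, hkV⟩
            rw [h8, Finset.card_erase_of_mem h9] at h7
            have : 0 < (c ∩ V).card := Finset.card_pos.2 ⟨k, h9⟩
            omega
          · have h8 : c' ∩ V = insert k (c ∩ V) := by
              ext i
              by_cases hik : i = k
              · subst hik; simp [h5, hkc, hkV]
              · rw [Finset.mem_inter, h4 i hik, Finset.mem_insert, Finset.mem_inter]; simp [hik]
            have h9 : k ∉ c ∩ V := fun h => hkc (Finset.mem_inter.1 h).1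
            rw [h8, Finset.card_insert_of_notMem h9] at h7
            omega)
        (fun c hc p hp h4 h5 => by
          have h6 := (Finset.mem_filter.1 hc).2
          have h7 := (Finset.mem_filter.1 (Finset.mem_filter.1 h6).1).2
          refine h7 (hJ (fun l => if l ∈ Y then p l else if l = i₀ then p i₀ else 0) _
            (hK.down p hp _ (fun j hj => by simp [hj]) (fun l hl => ?_))
            (fun l hl hli => by simp [hl, hli]) (fun j hj => ?_) (fun j _ => ?_) ?_
            (fun l hl hli => ?_))
          · simp only [hl, if_false]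
            split_ifs with h8
            · rw [h8]; exact ⟨hK.nonneg p hp i₀, le_rfl⟩
            · exact ⟨le_rfl, hK.nonneg p hp l⟩
          · have hjY := hVY hj
            have hji : j ≠ i₀ := fun h => hi₀Y (h ▸ hjY)
            simp only [hjY, if_true]
            rw [h4 j hjY fun h => (Finset.mem_sdiff.1 h).2 hj]
            simp [corner, hj, hji]
          · simp only [corner]; split_ifs <;> norm_num
          · have h8 : p i₀ = 1 := le_antisymm (hK.le_one p hp i₀)
              (h5 i₀ (Finset.mem_singleton_self i₀))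
            simp [corner, hi₀Y, h8]
          · have h8 : l ∉ V := fun h => hl (hVY h)
            simp [corner, h8, hli])
      refine ⟨L, final_count (V := V) (S := {i₀}) (C' := C')
        (by rw [Finset.disjoint_singleton_right]; exact fun h => hi₀Y (hVY h))
        (fun c hc => Finset.mem_powerset.1 (Finset.mem_filter.1 (Finset.mem_filter.1 hc).1).1)
        ?_ ?_, hLit⟩
      · rw [Finset.card_singleton, pow_succ]
        have h4 : C'.card * 2 ^ h = C'.card * 2 ^ (h - 1) * 2 := by
          rw [mul_assoc, ← pow_succ]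
          congr 2
          omega
        rw [h4]
        exact Nat.mul_le_mul_right _ hrW
      · refine hL.trans (Finset.card_le_card fun s hs => ?_)
        rw [Finset.mem_filter] at hs ⊢
        refine ⟨hs.1, fun h4 => hs.2 ⟨?_, h4.2⟩⟩
        refine Finset.mem_filter.2 ⟨Finset.mem_powerset.2 Finset.inter_subset_right, ?_⟩
        rw [Finset.inter_assoc, Finset.inter_eq_right.2 hVY]
        exact h4.1

end

end Pool.Agent.Work.MP_80156a_co
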