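import Pool.Agent.Work.MP_80156a_co.Main

/-!
# MP_80156a_co: affine changes of coordinates and the box
-/

set_option autoImplicit false

namespace Pool.Agent.Work.MP_80156a_co

theorem HP.mono {E : Type*} [AddCommGroup E] {K : Set E} {m n : ℕ} (h : HP K m) (hmn : m ≤ n) :
    HP K n := fun T hT => h T fun S hS hc => hT S hS (hc.trans hmn)

theorem HP.transfer {E F : Type*} [AddCommGroup E] [AddCommGroup F] {K : Set F} {n : ℕ}
    (hK : HP K n) (e : E ≃+ F) (o : F) : HP {x : E | o + e x ∈ K} n := by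
  classical
  intro T hT
  obtain ⟨x, hx⟩ := hK (T.image e) fun S hS hc => by
    obtain ⟨y, hy⟩ := hT (T.filter fun t => e t ∈ S) (Finset.filter_subset _ _) (by
      refine le_trans ?_ hc
      rw [← Finset.card_image_of_injective (T.filter fun t => e t ∈ S) e.injective]
      refine Finset.card_le_card fun s hs => ?_
      obtain ⟨t, ht, rfl⟩ := Finset.mem_image.1 hs
      exact (Finset.mem_filter.1 ht).2)
    refine ⟨o + e y, fun s hs => ?_⟩
    obtain ⟨t, ht, rfl⟩ := Finset.mem_image.1 (hS hs)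
    have := hy t (Finset.mem_filter.2 ⟨ht, hs⟩)
    rw [Set.mem_ofPred_eq, map_sub] at this
    rwa [add_sub_assoc]
  refine ⟨e.symm (x - o), fun t ht => ?_⟩
  have := hx (e t) (Finset.mem_image_of_mem e ht)
  rw [Set.mem_ofPred_eq, map_sub, AddEquiv.apply_symm_apply]
  have h2 : o + (x - o - e t) = x - e t := by abel
  rwa [h2]

theorem hp_box {ι : Type*} [Fintype ι] {K : Set (ι → ℝ)}
    (hsub : ∀ z ∈ K, ∀ i, 0 ≤ z i ∧ z i ≤ 1)
    (hfull : ∀ z : ι → ℝ, (∀ i, 0 ≤ z i) → (∀ i, z i ≤ 1) → z ∈ K) : HP K 2 := by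
  classical
  intro T hT
  rcases T.eq_empty_or_nonempty with rfl | hne
  · exact ⟨0, by simp⟩
  have hmax : ∀ i, ∃ t ∈ T, ∀ t' ∈ T, t' i ≤ t i := fun i =>
    T.exists_max_image (fun t => t i) hne
  choose m hm hmax using hmax
  refine ⟨fun i => m i i, fun t ht => hfull _ (fun i => ?_) fun i => ?_⟩
  · have := hmax i t ht
    simp only [Pi.sub_apply]; linarith
  · obtain ⟨y, hy⟩ := hT {m i, t} (by
      intro s hs
      rcases Finset.mem_insert.1 hs with rfl | hs
      · exact hm i
      · rw [Finset.mem_singleton.1 hs]; exact ht) Finset.card_le_two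
    have h1 := (hsub _ (hy (m i) (Finset.mem_insert_self _ _)) i).1
    have h2 := (hsub _ (hy t (Finset.mem_insert_of_mem (Finset.mem_singleton_self t))) i).2
    simp only [Pi.sub_apply] at h1 h2 ⊢
    linarith

/-- the theorem for bodies which are monotone toward a face, in coordinates of a basis -/
theorem main_of_basis {d : ℕ} {E : Type*} [NormedAddCommGroup E] [NormedSpace ℝ E]
    [FiniteDimensional ℝ E] {K : Set E}
    (b : Module.Basis (Fin d) ℝ E) (o : E) (Y : Finset (Fin d))
    (hconv : Convex ℝ K) (hcomp : IsCompact K) (hint : (interior K).Nonempty)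
    (hnn : ∀ z ∈ K, ∀ i, 0 ≤ b.repr (z - o) i)
    (hle : ∀ z ∈ K, ∀ j ∈ Y, b.repr (z - o) j ≤ 1)
    (hface : ∀ z, (∀ j ∈ Y, 0 ≤ b.repr (z - o) j ∧ b.repr (z - o) j ≤ 1) →
      (∀ i, i ∉ Y → b.repr (z - o) i = 0) → z ∈ K)
    (hdown : ∀ z ∈ K, ∀ z', (∀ j ∈ Y, b.repr (z' - o) j = b.repr (z - o) j) →
      (∀ i, i ∉ Y → 0 ≤ b.repr (z' - o) i ∧ b.repr (z' - o) i ≤ b.repr (z - o) i) → z' ∈ K)
    {h : ℕ} (h3 : 2 < h) (hHP : HP K (h + 1)) (hnHP : ¬ HP K ((h - 1) + 1)) :
    ∃ L : Finset E, L.card ≤ 2 ^ d - 2 ^ (d - h) ∧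
      ∀ z ∈ K, ∃ v ∈ L, ∃ t : ℝ, 0 < t ∧ z + t • v ∈ interior K := by
  classical
  -- the widths
  have hcont : ∀ i, Continuous fun z : E => b.repr (z - o) i := fun i =>
    (b.coord i).continuous_of_finiteDimensional.comp (continuous_id.sub continuous_const)
  have hKne : K.Nonempty := hint.mono interior_subset
  have hmax : ∀ i, ∃ z ∈ K, ∀ z' ∈ K, b.repr (z' - o) i ≤ b.repr (z - o) i := fun i => by
    obtain ⟨z, hz, hz'⟩ := hcomp.exists_isMaxOn hKne (hcont i).continuousOn
    exact ⟨z, hz, fun z' h => hz' h⟩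
  choose p hpK hp using hmax
  have hpos : ∀ i, 0 < b.repr (p i - o) i := by
    intro i
    obtain ⟨z, hz⟩ := hint
    have h1 : Filter.Tendsto (fun t : ℝ => z + t • b i) (nhds 0) (nhds (z + (0 : ℝ) • b i)) :=
      (continuous_const.add (continuous_id.smul continuous_const)).tendsto 0
    rw [zero_smul, add_zero] at h1
    have h2 := h1.eventually (isOpen_interior.mem_nhds hz)
    obtain ⟨ε, hε, h3⟩ := Metric.eventually_nhds_iff.1 h2
    have h4 : z + (ε / 2) • b i ∈ K := interior_subset (h3 (by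
      rw [Real.dist_eq, sub_zero, abs_of_pos (by positivity)]; linarith))
    have h5 := hp i _ h4
    have h6 : b.repr (z + (ε / 2) • b i - o) i = b.repr (z - o) i + ε / 2 := by
      have : z + (ε / 2) • b i - o = (z - o) + (ε / 2) • b i := by abel
      rw [this, map_add, map_smul, b.repr_self]
      simp
    have h7 := hnn z (interior_subset hz) i
    rw [h6] at h5
    linarith
  set ρ : Fin d → ℝ := fun i => if i ∈ Y then 1 else b.repr (p i - o) i with hρ
  have hρpos : ∀ i, 0 < ρ i := by
    intro i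
    by_cases hi : i ∈ Y
    · simp [hρ, hi]
    · simpa [hρ, hi] using hpos i
  -- the change of coordinates
  set A : (Fin d → ℝ) ≃ₗ[ℝ] E := (b.unitsSMul fun i => Units.mk0 (ρ i) (hρpos i).ne').equivFun.symm
    with hA
  have hrepr : ∀ x i, b.repr (A x) i = ρ i * x i := by
    intro x i
    have h1 := (b.unitsSMul fun i => Units.mk0 (ρ i) (hρpos i).ne').equivFun.apply_symm_apply x
    have h2 := congrFun h1 i
    rw [Module.Basis.equivFun_apply, Module.Basis.repr_unitsSMul] at h2
    rw [← h2]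
    have h3 : (Units.mk0 (ρ i) (hρpos i).ne')⁻¹ • b.repr (A x) i = (ρ i)⁻¹ * b.repr (A x) i := by
      rw [Units.smul_def, Units.val_inv_eq_inv_val, Units.val_mk0, smul_eq_mul]
    change _ = ρ i * ((Units.mk0 (ρ i) (hρpos i).ne')⁻¹ • b.repr (A x) i)
    rw [h3, mul_inv_cancel_left₀ (hρpos i).ne']
  have hrepr' : ∀ x i, b.repr (o + A x - o) i = ρ i * x i := fun x i => by
    rw [add_sub_cancel_left, hrepr]
  set e : (Fin d → ℝ) ≃L[ℝ] E := A.toContinuousLinearEquiv with he
  set g : (Fin d → ℝ) ≃ₜ E := e.toHomeomorph.trans (Homeomorph.addLeft o) with hg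
  have hgx : ∀ x, g x = o + A x := fun x => rfl
  set K' : Set (Fin d → ℝ) := {x | o + A x ∈ K} with hK'
  have hK'g : K' = g ⁻¹' K := rfl
  have hint' : interior K' = g ⁻¹' interior K := by rw [hK'g, g.preimage_interior]
  have hN : Norml K' Y := by
    refine ⟨?_, ?_, ?_, ?_, ?_, ?_, ?_⟩
    · intro x hx y hy α β hα hβ hαβ
      have h1 := hconv hx hy hα hβ hαβ
      have h2 : α • (o + A x) + β • (o + A y) = o + A (α • x + β • y) := by
        rw [map_add, map_smul, map_smul, smul_add, smul_add]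
        have : o = α • o + β • o := by rw [← add_smul, hαβ, one_smul]
        conv_rhs => rw [this]
        abel
      rw [h2] at h1
      exact h1
    · rw [hK'g]; exact g.isCompact_preimage.2 hcomp
    · intro x hx i
      have h1 := hnn _ hx i
      rw [hrepr'] at h1
      exact nonneg_of_mul_nonneg_right h1 (hρpos i)
    · intro x hx i
      have h0 := hρpos i
      by_cases hi : i ∈ Y
      · have h1 := hle _ hx i hi
        rw [hrepr'] at h1
        simpa [hρ, hi] using h1
      · have h1 := hp i _ hx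
        rw [hrepr'] at h1
        have h2 : ρ i = b.repr (p i - o) i := by simp [hρ, hi]
        rw [← h2] at h1
        by_contra h3
        push Not at h3
        nlinarith
    · intro x hx1 hx2
      refine hface _ (fun j hj => ?_) fun i hi => ?_
      · rw [hrepr']
        have h1 := hx1 j hj
        simpa [hρ, hj] using h1
      · rw [hrepr', hx2 i hi, mul_zero]
    · intro x hx x' h1 h2
      refine hdown _ hx _ (fun j hj => ?_) fun i hi => ?_
      · rw [hrepr', hrepr', h1 j hj]
      · rw [hrepr', hrepr']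
        exact ⟨mul_nonneg (hρpos i).le (h2 i hi).1,
          mul_le_mul_of_nonneg_left (h2 i hi).2 (hρpos i).le⟩
    · intro i hi
      refine ⟨A.symm (p i - o), ?_, ?_⟩
      · change o + A (A.symm (p i - o)) ∈ K
        rw [A.apply_symm_apply, add_sub_cancel]
        exact hpK i
      · have h1 := hrepr (A.symm (p i - o)) i
        rw [A.apply_symm_apply] at h1
        have h2 : ρ i = b.repr (p i - o) i := by simp [hρ, hi]
        rw [← h2] at h1
        have h3 := hρpos i
        field_simp at h1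
        linarith
  have hHP' : HP K' (h + 1) := hHP.transfer A.toAddEquiv o
  have hne' : (interior K').Nonempty := by
    obtain ⟨z, hz⟩ := hint
    exact ⟨g.symm z, by rw [hint']; simpa using hz⟩
  by_cases hfull : ∀ z : Fin d → ℝ, (∀ i, 0 ≤ z i) → (∀ i, z i ≤ 1) → z ∈ K'
  · exfalso
    refine hnHP ?_
    have h1 : HP K' 2 := hp_box (fun z hz i => ⟨hN.nonneg z hz i, hN.le_one z hz i⟩) hfull
    have h2 := h1.transfer A.symm.toAddEquiv (-A.symm o)
    have h3 : {x : E | -A.symm o + A.symm.toAddEquiv x ∈ K'} = K := by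
      ext x
      change o + A (-A.symm o + A.symm x) ∈ K ↔ x ∈ K
      have : o + A (-A.symm o + A.symm x) = x := by simp
      rw [this]
    rw [h3] at h2
    exact h2.mono (by omega)
  · push Not at hfull
    obtain ⟨z₀, h4, h5, h6⟩ := hfull
    obtain ⟨L, hL, hLit⟩ := norml_main hN hne' (by omega : 3 ≤ h) hHP' h4 h5 h6
    rw [Fintype.card_fin] at hL
    refine ⟨L.image A, Finset.card_image_le.trans hL, fun z hz => ?_⟩
    have hz' : A.symm (z - o) ∈ K' := by
      change o + A (A.symm (z - o)) ∈ K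
      rwa [A.apply_symm_apply, add_sub_cancel]
    obtain ⟨v, hv, t, ht, h7⟩ := hLit _ hz'
    refine ⟨A v, Finset.mem_image_of_mem A hv, t, ht, ?_⟩
    rw [hint'] at h7
    have h8 : g (A.symm (z - o) + t • v) = z + t • A v := by
      rw [hgx, map_add, map_smul, A.apply_symm_apply]
      abel
    rw [Set.mem_preimage, h8] at h7
    exact h7

end Pool.Agent.Work.MP_80156a_co
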